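import Pool.Agent.Saw39.MaxMoment

/-!
XI72: the generating function of the self-avoiding walks of the hexagonal lattice which reach the distance R is
submultiplicative in R.
-/

set_option autoImplicit false

open scoped ENNReal

namespace XI72

open SawNu

/-- self-avoiding words of the hexagonal lattice that start at a vertex of the type b -/
def Sw (b : Bool) : Set (List Pt) := {l | TW hexL.S b l ∧ SA l}

/-- the walk reaches the distance R -/
def Rch (R : ℝ) (l : List Pt) : Prop := ∃ j, j ≤ l.length ∧ R ≤ ‖phiTri (ps l j)‖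

/-- generating function of the walks that reach the distance R -/
noncomputable def M (z : ℝ≥0∞) (b : Bool) (R : ℝ) : ℝ≥0∞ :=
  ∑' l : {l : List Pt // l ∈ Sw b ∧ Rch R l}, z ^ l.1.length

/-- reflection in the origin -/
def ng (l : List Pt) : List Pt := l.map (fun p => -p)

lemma ng_length (l : List Pt) : (ng l).length = l.length := List.length_map _

lemma ng_ng (l : List Pt) : ng (ng l) = l := by
  unfold ng
  rw [List.map_map]
  conv_rhs => rw [← List.map_id l]
  congr 1
  funext p
  simp

lemma ps_ng (l : List Pt) (i : ℕ) : ps (ng l) i = -ps l i := by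
  unfold ps ng
  rw [← List.map_take]
  induction l.take i with
  | nil => simp
  | cons a t ih =>
    rw [List.map_cons, List.sum_cons, List.sum_cons, ih]
    abel

lemma mem_S_neg {b : Bool} {s : Pt} (h : s ∈ hexL.S b) : -s ∈ hexL.S (!b) := by
  revert h
  cases b
  · simp only [hexL, cond_true, cond_false, Bool.not_false, Finset.mem_insert, Finset.mem_singleton]
    rintro (rfl | rfl | rfl) <;> decide
  · simp only [hexL, cond_true, cond_false, Bool.not_true, Finset.mem_insert, Finset.mem_singleton]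
    rintro (rfl | rfl | rfl) <;> decide

lemma ng_mem {b : Bool} {l : List Pt} (h : l ∈ Sw b) : ng l ∈ Sw (!b) := by
  refine ⟨?_, ?_⟩
  · have h1 := TW_map (S := hexL.S) (g := fun p : Pt => -p) (f := true) (fun c s hs => by
      have := mem_S_neg hs
      cases c <;> simpa using this) b l h.1
    have e : xor b true = !b := by cases b <;> rfl
    rw [e] at h1
    exact h1
  · intro i j hij hj
    rw [ng_length] at hj
    rw [ps_ng, ps_ng]
    exact fun he => h.2 i j hij hj (neg_injective he)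

lemma Rch_ng {R : ℝ} {l : List Pt} : Rch R (ng l) ↔ Rch R l := by
  unfold Rch
  simp only [ng_length, ps_ng, map_neg, norm_neg]

lemma norm_step {b : Bool} {s : Pt} (h : s ∈ hexL.S b) : ‖phiTri s‖ ≤ 1 := by
  have key : ∀ x y : ℤ, (x = 2 ∨ x = -2) ∧ y = 0 ∨ (x = 1 ∨ x = -1) ∧ (y = 1 ∨ y = -1) → ‖phiTri (x, y)‖ ≤ 1 := by
    intro x y hxy
    have h3 : Real.sqrt 3 * Real.sqrt 3 = 3 := Real.mul_self_sqrt (by norm_num)
    have h1 : ‖phiTri (x, y)‖ ^ 2 ≤ 1 := by
      rw [← Complex.normSq_eq_norm_sq, Complex.normSq_apply]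
      simp only [phiTri, AddMonoidHom.coe_mk, ZeroHom.coe_mk]
      have e : (y : ℝ) * (Real.sqrt 3 / 2) * ((y : ℝ) * (Real.sqrt 3 / 2)) =
          (y : ℝ) ^ 2 * (Real.sqrt 3 * Real.sqrt 3) / 4 := by ring
      rw [e, h3]
      rcases hxy with ⟨rfl | rfl, rfl⟩ | ⟨rfl | rfl, rfl | rfl⟩ <;> norm_num
    have h2 := norm_nonneg (phiTri (x, y))
    nlinarith
  revert h
  cases b
  · simp only [hexL, cond_false, Finset.mem_insert, Finset.mem_singleton]
    rintro (rfl | rfl | rfl) <;> exact key _ _ (by norm_num)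
  · simp only [hexL, cond_true, Finset.mem_insert, Finset.mem_singleton]
    rintro (rfl | rfl | rfl) <;> exact key _ _ (by norm_num)

lemma TW_getElem {b : Bool} {l : List Pt} (h : TW hexL.S b l) {i : ℕ} (hi : i < l.length) :
    ∃ c, l[i] ∈ hexL.S c := by
  induction l generalizing b i with
  | nil => simp at hi
  | cons s l ih =>
    obtain ⟨h1, h2⟩ := h
    rcases i with _ | i
    · exact ⟨b, h1⟩
    · exact ih h2 (by simpa using hi)

lemma norm_succ {b : Bool} {l : List Pt} (h : TW hexL.S b l) {i : ℕ} (hi : i < l.length) :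
    ‖phiTri (ps l (i + 1))‖ ≤ ‖phiTri (ps l i)‖ + 1 := by
  obtain ⟨c, hc⟩ := TW_getElem h hi
  rw [ps_succ hi, map_add]
  exact (norm_add_le _ _).trans (by linarith [norm_step hc])

/-- cutting at the first exit from the ball of radius T -/
lemma split {b : Bool} {l : List Pt} (hl : l ∈ Sw b) {R T : ℝ} (hR : 0 ≤ R) (hT : 0 ≤ T) (h : Rch (R + T + 1) l) :
    ∃ t, t ≤ l.length ∧ (l.take t ∈ Sw b ∧ Rch T (l.take t)) ∧ l.drop t ∈ Sw (xor b t.bodd) ∧ Rch R (l.drop t) := by
  classical
  obtain ⟨j0, hj0, h0⟩ := h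
  have hex : ∃ j, j ≤ l.length ∧ T ≤ ‖phiTri (ps l j)‖ := ⟨j0, hj0, by linarith⟩
  set t := Nat.find hex with ht
  obtain ⟨h1, h2⟩ := Nat.find_spec hex
  rw [← ht] at h1 h2
  have htl : (l.take t).length = t := by rw [List.length_take]; omega
  have htj : t ≤ j0 := Nat.find_min' hex ⟨hj0, by linarith⟩
  have h3 : ‖phiTri (ps l t)‖ ≤ T + 1 := by
    rcases Nat.eq_zero_or_pos t with h | h
    · rw [h, ps_zero, map_zero, norm_zero]
      linarith
    · have h4 : ¬ (t - 1 ≤ l.length ∧ T ≤ ‖phiTri (ps l (t - 1))‖) := Nat.find_min hex (by omega)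
      push Not at h4
      have h5 := h4 (by omega)
      have h6 := norm_succ hl.1 (i := t - 1) (by omega)
      rw [Nat.sub_add_cancel h] at h6
      linarith
  have hap : l.take t ++ l.drop t = l := List.take_append_drop t l
  have hTW := hl.1
  rw [← hap, TW_append] at hTW
  have hSA := hl.2
  rw [← hap] at hSA
  refine ⟨t, h1, ⟨⟨hTW.1, hSA.left⟩, t, by omega, ?_⟩, ⟨?_, hSA.right⟩, j0 - t, ?_, ?_⟩
  · rw [ps_take, min_self]
    exact h2
  · have h7 := hTW.2
    unfold par at h7
    rw [htl] at h7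
    exact h7
  · rw [List.length_drop]
    omega
  · rw [ps_drop l _ h1, map_sub]
    have h8 : t + (j0 - t) = j0 := by omega
    rw [h8]
    have h9 : ‖phiTri (ps l j0)‖ ≤ ‖phiTri (ps l j0) - phiTri (ps l t)‖ + ‖phiTri (ps l t)‖ := by
      have := norm_add_le (phiTri (ps l j0) - phiTri (ps l t)) (phiTri (ps l t))
      rwa [sub_add_cancel] at this
    linarith

/-- the two sublattices play the same role -/
lemma M_neg_le (z : ℝ≥0∞) (b : Bool) (R : ℝ) : M z b R ≤ M z (!b) R := by
  unfold M
  have h := ENNReal.tsum_comp_le_tsum_of_injective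
    (f := fun l : {l : List Pt // l ∈ Sw b ∧ Rch R l} =>
      (⟨ng l.1, ng_mem l.2.1, Rch_ng.2 l.2.2⟩ : {l : List Pt // l ∈ Sw (!b) ∧ Rch R l}))
    (fun l l' hll => by
      have h1 := congrArg Subtype.val hll
      simp only at h1
      apply Subtype.ext
      rw [← ng_ng l.1, h1, ng_ng])
    (fun l => z ^ l.1.length)
  simp only [ng_length] at h
  exact h

lemma M_neg (z : ℝ≥0∞) (b : Bool) (R : ℝ) : M z b R = M z (!b) R := by
  apply le_antisymm (M_neg_le z b R)
  have := M_neg_le z (!b) R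
  rwa [Bool.not_not] at this

lemma M_eq (z : ℝ≥0∞) (b : Bool) (R : ℝ) : M z b R = M z false R := by
  cases b
  · rfl
  · exact M_neg z true R

open Classical in
/-- the second part, moved to the sublattice false -/
noncomputable def snd' (c : Bool) (l : List Pt) : List Pt := if c then ng l else l

lemma snd'_inj {c : Bool} {l l' : List Pt} (h : snd' c l = snd' c l') : l = l' := by
  unfold snd' at h
  split_ifs at h
  · rw [← ng_ng l, h, ng_ng]
  · exact h

lemma snd'_mem {c : Bool} {l : List Pt} (h : l ∈ Sw c) : snd' c l ∈ Sw false := by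
  unfold snd'
  cases c
  · simpa using h
  · simpa using ng_mem h

lemma snd'_Rch {c : Bool} {R : ℝ} {l : List Pt} (h : Rch R l) : Rch R (snd' c l) := by
  unfold snd'
  split_ifs
  · exact Rch_ng.2 h
  · exact h

lemma snd'_length {c : Bool} {l : List Pt} : (snd' c l).length = l.length := by
  unfold snd'
  split_ifs
  · exact ng_length l
  · rfl

/-- **submultiplicativity** -/
theorem M_mul (z : ℝ≥0∞) {R T : ℝ} (hR : 0 ≤ R) (hT : 0 ≤ T) :
    M z false (R + T + 1) ≤ M z false T * M z false R := by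
  classical
  have hsp : ∀ l : {l : List Pt // l ∈ Sw false ∧ Rch (R + T + 1) l}, ∃ t, t ≤ l.1.length ∧
      (l.1.take t ∈ Sw false ∧ Rch T (l.1.take t)) ∧ l.1.drop t ∈ Sw (xor false t.bodd) ∧ Rch R (l.1.drop t) :=
    fun l => split l.2.1 hR hT l.2.2
  choose t ht1 ht2 ht3 using hsp
  let F : {l : List Pt // l ∈ Sw false ∧ Rch (R + T + 1) l} →
      {l : List Pt // l ∈ Sw false ∧ Rch T l} × {l : List Pt // l ∈ Sw false ∧ Rch R l} := fun l =>
    (⟨l.1.take (t l), ht2 l⟩, ⟨snd' (xor false (t l).bodd) (l.1.drop (t l)), snd'_mem (ht3 l).1, snd'_Rch (ht3 l).2⟩)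
  have hlen : ∀ l, (l.1.take (t l)).length = t l := fun l => by
    have := ht1 l
    rw [List.length_take]
    omega
  have hF : Function.Injective F := by
    intro l l' h
    have h1 : l.1.take (t l) = l'.1.take (t l') := congrArg Subtype.val (Prod.ext_iff.1 h).1
    have h2 : snd' (xor false (t l).bodd) (l.1.drop (t l)) = snd' (xor false (t l').bodd) (l'.1.drop (t l')) :=
      congrArg Subtype.val (Prod.ext_iff.1 h).2
    have h3 : t l = t l' := by rw [← hlen l, h1, hlen l']
    rw [h3] at h2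
    have h4 := snd'_inj h2
    apply Subtype.ext
    rw [← List.take_append_drop (t l) l.1, ← List.take_append_drop (t l') l'.1, h1]
    congr 1
    rw [← h4]
    rw [h3]
  have h := ENNReal.tsum_comp_le_tsum_of_injective hF (fun p => z ^ p.1.1.length * z ^ p.2.1.length)
  have h1 : ∀ l, z ^ (F l).1.1.length * z ^ (F l).2.1.length = z ^ l.1.length := by
    intro l
    rw [← pow_add]
    congr 1
    show (l.1.take (t l)).length + (snd' (xor false (t l).bodd) (l.1.drop (t l))).length = l.1.length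
    rw [snd'_length, ← List.length_append, List.take_append_drop]
  simp only [h1] at h
  refine h.trans (le_of_eq ?_)
  unfold M
  have h5 := ENNReal.tsum_prod (f := fun (a : {l : List Pt // l ∈ Sw false ∧ Rch T l})
    (b : {l : List Pt // l ∈ Sw false ∧ Rch R l}) => z ^ a.1.length * z ^ b.1.length)
  rw [h5, ← ENNReal.tsum_mul_right]
  exact tsum_congr (fun a => ENNReal.tsum_mul_left)

theorem M_pow (z : ℝ≥0∞) {T : ℝ} (hT : 0 ≤ T) (k : ℕ) :
    M z false (k * (T + 1)) ≤ M z false T ^ k * M z false 0 := by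
  induction k with
  | zero => simp
  | succ k ih =>
    have h1 : ((k + 1 : ℕ) : ℝ) * (T + 1) = k * (T + 1) + T + 1 := by push_cast; ring
    rw [h1, pow_succ]
    refine (M_mul z (by positivity) hT).trans ?_
    calc M z false T * M z false (k * (T + 1)) ≤ M z false T * (M z false T ^ k * M z false 0) :=
          mul_le_mul_right ih _
      _ = _ := by ring

lemma M_anti (z : ℝ≥0∞) (b : Bool) {R R' : ℝ} (h : R ≤ R') : M z b R' ≤ M z b R := by
  unfold M
  exact ENNReal.tsum_comp_le_tsum_of_injective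
    (f := fun l : {l : List Pt // l ∈ Sw b ∧ Rch R' l} =>
      (⟨l.1, l.2.1, by
        obtain ⟨j, hj, hh⟩ := l.2.2
        exact ⟨j, hj, h.trans hh⟩⟩ : {l : List Pt // l ∈ Sw b ∧ Rch R l}))
    (fun l l' hll => Subtype.ext (congrArg Subtype.val hll :))
    (fun l => z ^ l.1.length)

open Classical in
/-- sum over the lengths -/
theorem M_tsum (z : ℝ≥0∞) (R : ℝ) :
    M z false R = ∑' n : ℕ, (((WS hexL n).filter (fun l => Rch R l)).card : ℝ≥0∞) * z ^ n := by
  unfold M
  have h1 := (Equiv.sigmaFiberEquiv (fun l : {l : List Pt // l ∈ Sw false ∧ Rch R l} => l.1.length)).tsum_eq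
    (fun l => z ^ l.1.length)
  rw [← h1, ENNReal.tsum_sigma']
  refine tsum_congr (fun n => ?_)
  have h2 : ∀ x : {l : {l : List Pt // l ∈ Sw false ∧ Rch R l} // l.1.length = n},
      z ^ (((Equiv.sigmaFiberEquiv (fun l : {l : List Pt // l ∈ Sw false ∧ Rch R l} => l.1.length)) ⟨n, x⟩).1.length)
        = z ^ n := by
    intro x
    have := x.2
    simp only [Equiv.sigmaFiberEquiv, Equiv.coe_fn_mk]
    rw [this]
  simp only [h2]
  let e : {l : {l : List Pt // l ∈ Sw false ∧ Rch R l} // l.1.length = n} ≃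
      ((WS hexL n).filter (fun l => Rch R l)) :=
    { toFun := fun x => ⟨x.1.1, Finset.mem_filter.2 ⟨mem_WS.2 ⟨x.2, x.1.2.1.1, x.1.2.1.2⟩, x.1.2.2⟩⟩
      invFun := fun y => ⟨⟨y.1, by
        have h := Finset.mem_filter.1 y.2
        have h' := mem_WS.1 h.1
        exact ⟨⟨h'.2.1, h'.2.2⟩, h.2⟩⟩, (mem_WS.1 (Finset.mem_filter.1 y.2).1).1⟩
      left_inv := fun x => rfl
      right_inv := fun y => rfl }
  rw [← e.symm.tsum_eq (fun _ => z ^ n)]
  rw [tsum_fintype, Finset.sum_const, nsmul_eq_mul, Finset.card_univ, Fintype.card_coe]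

end XI72
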