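import Pool.Agent.XI72.A
import Pool.Agent.T2.Defs
import Pool.Agent.PHW.Dict

/-!
XI72, part C: the lower bound for the correlation length of the hexagonal lattice from the mean length of the
bridges.

`Gd z p` = the generating function of the self-avoiding walks from 0 to the point `p`.
-/

set_option autoImplicit false

open scoped ENNReal

namespace XI72

open SawNu HexObs HexObs.PHWDict

/-- the generating function of the walks from 0 to p -/
noncomputable def Gd (z : ℝ≥0∞) (p : SawNu.Pt) : ℝ≥0∞ :=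
  ∑' l : {l : List SawNu.Pt // l ∈ Sw false ∧ ps l l.length = p}, z ^ l.1.length

/-! ### Concatenation of bridges -/

lemma Brd_inj {a : ℕ} {s s' t t' : List Bool} {b b' : ℕ} (hs : s ∈ Brd a) (hs' : s' ∈ Brd a) (ht : t ∈ Brd b)
    (ht' : t' ∈ Brd b') (h : s ++ t = s' ++ t') : s = s' ∧ t = t' := by
  have key : ∀ {s s' t t' : List Bool} {b : ℕ}, s ∈ Brd a → s' ∈ Brd a → t ∈ Brd b → s ++ t = s' ++ t' →
      ¬ s.length < s'.length := by
    intro s s' t t' b hs hs' ht h hlt
    rw [mem_Brd] at hs hs' ht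
    have hlen := congrArg List.length h
    rw [List.length_append, List.length_append] at hlen
    have hl : s'.length - s.length ≤ t.length := by
      have h1 : s <+: s' := by
        rcases List.append_eq_append_iff.1 h with ⟨u, hu, _⟩ | ⟨u, hu, _⟩
        · exact ⟨u, hu.symm⟩
        · rw [hu, List.length_append] at hlt
          omega
      rcases List.append_eq_append_iff.1 h with ⟨u, hu, hu2⟩ | ⟨u, hu, _⟩
      · rw [hu, hu2, List.length_append, List.length_append]
        omega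
      · rw [hu, List.length_append] at hlt
        omega
    have h1 : lev (s ++ t) (s.length + (s'.length - s.length)) = 3 * a + lev t (s'.length - s.length) := by
      rw [lev_cat hs.2.2.1, hs.2.2.2]
    have h2 := (ht.1 (s'.length - s.length) (by omega) hl).1
    have e : s.length + (s'.length - s.length) = s'.length := by omega
    rw [e, h, lev_append (by omega), hs'.2.2.2] at h1
    omega
  have h1 := key hs hs' ht h
  have h2 := key hs' hs ht' h.symm
  exact List.append_inj h (by omega)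

/-- bridges of height T with at most N letters -/
def Bl (T N : ℕ) : Set (List Bool) := {t | t ∈ Brd T ∧ t.length ≤ N}

noncomputable def bz (z : ℝ≥0∞) (T N : ℕ) : ℝ≥0∞ := ∑' t : Bl T N, z ^ t.1.length

lemma bz_mul (z : ℝ≥0∞) (a b N N' : ℕ) : bz z a N * bz z b N' ≤ bz z (a + b) (N + N') := by
  unfold bz
  rw [← ENNReal.tsum_mul_right]
  have h1 : ∀ s : Bl a N, z ^ s.1.length * ∑' t : Bl b N', z ^ t.1.length =
      ∑' t : Bl b N', z ^ (s.1 ++ t.1).length := by
    intro s
    rw [← ENNReal.tsum_mul_left]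
    refine tsum_congr fun t => ?_
    rw [List.length_append, pow_add]
  rw [tsum_congr h1, ← ENNReal.tsum_prod (f := fun (s : Bl a N) (t : Bl b N') => z ^ (s.1 ++ t.1).length)]
  let φ : Bl a N × Bl b N' → Bl (a + b) (N + N') := fun p =>
    ⟨p.1.1 ++ p.2.1, Brd_append p.1.2.1 p.2.2.1, by
      rw [List.length_append]
      exact add_le_add p.1.2.2 p.2.2.2⟩
  have hφ : Function.Injective φ := by
    intro p q h
    have h' : p.1.1 ++ p.2.1 = q.1.1 ++ q.2.1 := congrArg Subtype.val h
    obtain ⟨e1, e2⟩ := Brd_inj p.1.2.1 q.1.2.1 p.2.2.1 q.2.2.1 h'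
    exact Prod.ext (Subtype.ext e1) (Subtype.ext e2)
  exact ENNReal.tsum_comp_le_tsum_of_injective hφ fun t : Bl (a + b) (N + N') => z ^ t.1.length

lemma bz_pow (z : ℝ≥0∞) (T N k : ℕ) : bz z T N ^ (k + 1) ≤ bz z ((k + 1) * T) ((k + 1) * N) := by
  induction k with
  | zero => simp
  | succ k ih =>
    rw [pow_succ]
    refine (mul_le_mul' ih le_rfl).trans ((bz_mul z _ _ _ _).trans (le_of_eq ?_))
    congr 1 <;> ring

/-! ### Bridges as walks -/

/-- the walk of a bridge -/
def wk (t : List Bool) : List SawNu.Pt := ng ((HexMu.stepsOf up t).map HexMu.psi)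

lemma wk_length (t : List Bool) : (wk t).length = t.length + 1 := by
  rw [wk, ng_length, List.length_map, HexMu.stepsOf_length]

lemma up_S : HexMu.psi up ∈ hexL.S true := by
  simp only [hexL, cond_true, HexMu.psi, up]
  decide

lemma wk_ps (t : List Bool) {i : ℕ} (hi : i ≤ t.length + 1) : ps (wk t) i = -HexMu.psi (vx oo up t i) := by
  rw [wk, ps_ng, HexMu.ps_map_psi]
  have h := HexMu.ps_stepsOf oo up t i hi
  have h0 : (oo : HexObs.Pt) = 0 := rfl
  rw [h0, zero_add] at h
  rw [h, h0]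

lemma wk_inj {t t' : List Bool} (h : wk t = wk t') : t = t' := by
  have h1 : (HexMu.stepsOf up t).map HexMu.psi = (HexMu.stepsOf up t').map HexMu.psi := by
    have := congrArg ng h
    rwa [wk, wk, ng_ng, ng_ng] at this
  exact HexMu.stepsOf_inj (by decide) (HexMu.map_psi_inj h1)

lemma Brd_sa {T : ℕ} {t : List Bool} (ht : t ∈ Brd T) :
    ∀ i k, i < k → k ≤ t.length + 1 → vx oo up t i ≠ vx oo up t k := by
  rw [mem_Brd] at ht
  obtain ⟨h1, h2, h3, h4⟩ := ht
  intro i k hik hk he
  rcases Nat.lt_or_ge k (t.length + 1) with h | h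
  · exact h2 i k hik (by omega) he
  · have e : k = t.length + 1 := by omega
    subst e
    have h5 : lev t (t.length + 1) = 3 * T + 2 := by
      rw [lev_succ, h3, h4]
      rfl
    have h6 : lev t i = lev t (t.length + 1) := congrArg (fun p => ip p up) he
    rw [h5] at h6
    rcases Nat.eq_zero_or_pos i with hi | hi
    · rw [hi, lev_zero] at h6
      omega
    · have := (h1 i hi (by omega)).2
      omega

lemma wk_mem {T : ℕ} {t : List Bool} (ht : t ∈ Brd T) : wk t ∈ Sw false := by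
  have h : (HexMu.stepsOf up t).map HexMu.psi ∈ Sw true := by
    refine ⟨HexMu.stepsOf_tw (by decide) up_S t, ?_⟩
    intro i j hij hj he
    rw [List.length_map, HexMu.stepsOf_length] at hj
    rw [HexMu.ps_map_psi, HexMu.ps_map_psi] at he
    have h3 := HexMu.psi_inj he
    have h4 := HexMu.ps_stepsOf oo up t i (by omega)
    have h5 := HexMu.ps_stepsOf oo up t j hj
    exact Brd_sa ht i j hij hj (by rw [← h4, ← h5, h3])
  exact ng_mem h

lemma norm_psi_ge (p : HexObs.Pt) : ((ip p up : ℤ) : ℝ) / 2 ≤ ‖phiTri (HexMu.psi p)‖ := by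
  have h3 : Real.sqrt 3 * Real.sqrt 3 = 3 := Real.mul_self_sqrt (by norm_num)
  have h : ‖phiTri (HexMu.psi p)‖ ^ 2 = (p.1 : ℝ) ^ 2 + p.1 * p.2 + p.2 ^ 2 := by
    rw [← Complex.normSq_eq_norm_sq, Complex.normSq_apply]
    simp only [phiTri, HexMu.psi, AddMonoidHom.coe_mk, ZeroHom.coe_mk]
    push_cast
    linear_combination (p.2 : ℝ) ^ 2 / 4 * h3
  refine abs_le_of_sq_le_sq' ?_ (norm_nonneg _) |>.2
  rw [h]
  unfold ip up
  push_cast
  nlinarith [sq_nonneg (p.1 : ℝ)]

lemma wk_norm {T : ℕ} {t : List Bool} (ht : t ∈ Brd T) : 3 * (T : ℝ) / 2 ≤ ‖phiTri (ps (wk t) (wk t).length)‖ := by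
  rw [wk_length, wk_ps t le_rfl, map_neg, norm_neg]
  refine le_trans ?_ (norm_psi_ge _)
  have h5 : ip (vx oo up t (t.length + 1)) up = 3 * T + 2 := by
    rw [mem_Brd] at ht
    have : lev t (t.length + 1) = 3 * T + 2 := by
      rw [lev_succ, ht.2.2.1, ht.2.2.2]
      rfl
    exact this
  rw [h5]
  push_cast
  linarith

/-! ### The number of the endpoints -/

lemma ps_abs {b : Bool} {l : List SawNu.Pt} (h : TW hexL.S b l) (i : ℕ) :
    |(ps l i).1| ≤ 2 * l.length ∧ |(ps l i).2| ≤ l.length := by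
  have key : ∀ (l : List SawNu.Pt), (∀ s ∈ l, |s.1| ≤ 2 ∧ |s.2| ≤ 1) → |l.sum.1| ≤ 2 * l.length ∧
      |l.sum.2| ≤ l.length := by
    intro l
    induction l with
    | nil => intro _; simp
    | cons s l ih =>
      intro h
      obtain ⟨h1, h2⟩ := ih fun s hs => h s (by simp [hs])
      obtain ⟨h3, h4⟩ := h s (by simp)
      rw [List.sum_cons, Prod.fst_add, Prod.snd_add, List.length_cons]
      push_cast
      exact ⟨(abs_add_le _ _).trans (by linarith), (abs_add_le _ _).trans (by linarith)⟩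
  have hs : ∀ s ∈ l, |s.1| ≤ 2 ∧ |s.2| ≤ 1 := by
    intro s hs
    obtain ⟨n, hn, rfl⟩ := List.getElem_of_mem hs
    obtain ⟨c, hc⟩ := TW_getElem h hn
    revert hc
    generalize l[n] = s
    intro hc
    cases c
    · simp only [hexL, cond_false, Finset.mem_insert, Finset.mem_singleton] at hc
      rcases hc with rfl | rfl | rfl <;> decide
    · simp only [hexL, cond_true, Finset.mem_insert, Finset.mem_singleton] at hc
      rcases hc with rfl | rfl | rfl <;> decide
  have h1 := key (l.take i) fun s h => hs s (List.mem_of_mem_take h)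
  have h2 : (l.take i).length ≤ l.length := by
    rw [List.length_take]
    omega
  have h2' : ((l.take i).length : ℤ) ≤ l.length := by exact_mod_cast h2
  unfold ps
  exact ⟨h1.1.trans (by linarith), h1.2.trans h2'⟩

/-- the box -/
noncomputable def Bx (L : ℕ) (r : ℝ) : Finset SawNu.Pt :=
  open scoped Classical in
    (Finset.Icc (-(2 * L : ℤ)) (2 * L) ×ˢ Finset.Icc (-(2 * L : ℤ)) (2 * L)).filter fun p => r ≤ ‖phiTri p‖

lemma Bx_card (L : ℕ) (r : ℝ) : ((Bx L r).card : ℝ) ≤ (4 * L + 1) ^ 2 := by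
  classical
  have h1 : (Bx L r).card ≤ (4 * L + 1) * (4 * L + 1) := by
    unfold Bx
    refine (Finset.card_filter_le _ _).trans (le_of_eq ?_)
    rw [Finset.card_product, Int.card_Icc]
    have : (2 * (L : ℤ) + 1 - -(2 * L)).toNat = 4 * L + 1 := by omega
    rw [this]
  calc ((Bx L r).card : ℝ) ≤ (((4 * L + 1) * (4 * L + 1) : ℕ) : ℝ) := by exact_mod_cast h1
    _ = (4 * L + 1) ^ 2 := by push_cast; ring

/-- The bridges are walks that end far from 0. -/
theorem bz_le (z : ℝ≥0∞) (T N : ℕ) :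
    bz z T N * z ≤ ∑ p ∈ Bx (N + 1) (3 * T / 2), Gd z p := by
  classical
  have hend : ∀ t : Bl T N, ps (wk t.1) (wk t.1).length ∈ Bx (N + 1) (3 * T / 2) := by
    rintro ⟨t, ht⟩
    have h1 := wk_norm ht.1
    have h2 := ps_abs (wk_mem ht.1).1 (wk t).length
    have h3 : ((wk t).length : ℤ) ≤ N + 1 := by
      rw [wk_length]
      have := ht.2
      push_cast
      omega
    unfold Bx
    rw [Finset.mem_filter, Finset.mem_product, Finset.mem_Icc, Finset.mem_Icc]
    refine ⟨⟨?_, ?_⟩, h1⟩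
    · rw [← abs_le]
      push_cast
      exact h2.1.trans (by linarith)
    · rw [← abs_le]
      push_cast
      exact h2.2.trans (by linarith)
  have h1 : bz z T N * z = ∑' t : Bl T N, z ^ (wk t.1).length := by
    unfold bz
    rw [← ENNReal.tsum_mul_right]
    refine tsum_congr fun t => ?_
    rw [wk_length, pow_succ]
  have h2 : ∑ p ∈ Bx (N + 1) (3 * T / 2), Gd z p =
      ∑' x : (Σ p : {p // p ∈ Bx (N + 1) (3 * T / 2)},
        {l : List SawNu.Pt // l ∈ Sw false ∧ ps l l.length = p.1}), z ^ x.2.1.length := by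
    rw [ENNReal.tsum_sigma' (f := fun x : (Σ p : {p // p ∈ Bx (N + 1) (3 * T / 2)},
        {l : List SawNu.Pt // l ∈ Sw false ∧ ps l l.length = p.1}) => z ^ x.2.1.length),
      tsum_fintype, ← Finset.sum_coe_sort]
    rfl
  rw [h1, h2]
  let φ : Bl T N → (Σ p : {p // p ∈ Bx (N + 1) (3 * T / 2)},
      {l : List SawNu.Pt // l ∈ Sw false ∧ ps l l.length = p.1}) := fun t =>
    ⟨⟨_, hend t⟩, ⟨wk t.1, wk_mem t.2.1, rfl⟩⟩
  have hφ : Function.Injective φ := by
    intro t t' h
    have : wk t.1 = wk t'.1 := congrArg (fun x => x.2.1) h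
    exact Subtype.ext (wk_inj this)
  exact ENNReal.tsum_comp_le_tsum_of_injective hφ fun x => z ^ x.2.1.length

/-- exponential beats polynomial -/
lemma pow_le_of {a b c K q : ℝ} (hb : 0 < b) (hc : 0 < c)
    (h : ∀ k : ℕ, a ^ (k + 1) * c ≤ (q * (k + 1)) ^ 2 * (K * b ^ (k + 1))) : a ≤ b := by
  by_contra hab
  rw [not_le] at hab
  have hr : 1 < a / b := (one_lt_div hb).2 hab
  have ht := tendsto_pow_const_div_const_pow_of_one_lt 2 hr
  have ht' := (ht.comp (Filter.tendsto_add_atTop_nat 1)).const_mul (q ^ 2 * K)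
  rw [mul_zero] at ht'
  obtain ⟨k, hk⟩ := (ht'.eventually (gt_mem_nhds hc)).exists
  have h1 := h k
  simp only [Function.comp_apply] at hk
  have hbk : 0 < b ^ (k + 1) := pow_pos hb _
  have hak : 0 < a ^ (k + 1) := pow_pos (hb.trans hab) _
  rw [div_pow, div_div_eq_mul_div, ← mul_div_assoc, div_lt_iff₀ hak] at hk
  push_cast at hk h1
  nlinarith

/-- **The lower bound.** -/
theorem lower {a C : ℝ} (hM : HexObs.T2.MeanLen a C) (hC : 0 < C) {T : ℕ} (hT : 1 ≤ T) {d : ℝ} (hd : 0 ≤ d)
    (hdT : d * (2 * C * (T : ℝ) ^ a) ≤ 1) {s K : ℝ} (hs : 0 < s) (hK : 0 ≤ K)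
    (h : ∀ p, Gd (ENNReal.ofReal (xc * Real.exp (-d))) p ≤
      ENNReal.ofReal (K * Real.exp (-(‖phiTri p‖ / s)))) :
    3 * (T : ℝ) / (2 * s) ≤ Real.log (2 * Real.exp 1 * (T + 3)) := by
  have hT0 : (0 : ℝ) < T := by exact_mod_cast hT
  set N' : ℝ := 2 * C * (T : ℝ) ^ a with hN'
  have hN'0 : 0 < N' := by positivity
  set N : ℕ := ⌊N'⌋₊ with hN
  set z : ℝ := xc * Real.exp (-d) with hz
  have hxc := xc_pos
  have hz0 : 0 < z := by positivity
  -- Markov
  have hMk : BT T ≤ 2 * ∑' t : Bl T N, wE t.1 := by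
    classical
    have h1 : BT T = ∑' t : Brd T, wE t.1 := (gf_Brd T).symm
    have h2 : ∀ t : Brd T, wE t.1 ≤ (if t.1.length ≤ N then wE t.1 else 0) +
        ENNReal.ofReal N'⁻¹ * ((t.1.length : ℝ≥0∞) * wE t.1) := by
      intro t
      by_cases ht : t.1.length ≤ N
      · rw [if_pos ht]
        exact le_self_add
      · rw [if_neg ht, zero_add, ← mul_assoc]
        have h3 : (1 : ℝ≥0∞) ≤ ENNReal.ofReal N'⁻¹ * (t.1.length : ℝ≥0∞) := by
          rw [← ENNReal.ofReal_natCast, ← ENNReal.ofReal_mul (inv_nonneg.2 hN'0.le), ENNReal.one_le_ofReal]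
          have h4 : N' < t.1.length := by
            rw [not_le, hN] at ht
            exact (Nat.floor_lt hN'0.le).1 ht
          rw [inv_mul_eq_div, one_le_div hN'0]
          exact h4.le
        calc wE t.1 = 1 * wE t.1 := (one_mul _).symm
          _ ≤ _ := mul_le_mul' h3 le_rfl
    have h3 : BT T ≤ (∑' t : Brd T, if t.1.length ≤ N then wE t.1 else 0) +
        ENNReal.ofReal N'⁻¹ * ∑' t : Brd T, (t.1.length : ℝ≥0∞) * wE t.1 := by
      rw [h1, ← ENNReal.tsum_mul_left, ← ENNReal.tsum_add]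
      exact ENNReal.tsum_le_tsum h2
    have h4 : ENNReal.ofReal N'⁻¹ * ∑' t : Brd T, (t.1.length : ℝ≥0∞) * wE t.1 ≤ BT T / 2 := by
      refine (mul_le_mul' le_rfl (hM T hT)).trans (le_of_eq ?_)
      rw [← mul_assoc, ← ENNReal.ofReal_mul (inv_nonneg.2 hN'0.le)]
      have : N'⁻¹ * (C * (T : ℝ) ^ a) = 2⁻¹ := by
        rw [hN']
        field_simp
      rw [this, ENNReal.ofReal_inv_of_pos (by norm_num), mul_comm, ENNReal.ofReal_ofNat]
      rfl
    have h5 : (∑' t : Brd T, if t.1.length ≤ N then wE t.1 else 0) ≤ ∑' t : Bl T N, wE t.1 := by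
      have e1 : (∑' t : Bl T N, wE t.1) = ∑' t : List Bool, (Bl T N).indicator wE t := tsum_subtype _ _
      have e2 : (∑' t : Brd T, if t.1.length ≤ N then wE t.1 else 0) =
          ∑' t : List Bool, (Brd T).indicator (fun t => if t.length ≤ N then wE t else 0) t :=
        tsum_subtype (Brd T) (fun t => if t.length ≤ N then wE t else 0)
      rw [e1, e2]
      refine ENNReal.tsum_le_tsum fun t => ?_
      by_cases h6 : t ∈ Brd T
      · by_cases h7 : t.length ≤ N
        · rw [Set.indicator_of_mem h6, if_pos h7, Set.indicator_of_mem (show t ∈ Bl T N from ⟨h6, h7⟩)]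
        · rw [Set.indicator_of_mem h6, if_neg h7]
          exact bot_le
      · rw [Set.indicator_of_notMem h6]
        exact bot_le
    have h6 : BT T ≤ (∑' t : Bl T N, wE t.1) + BT T / 2 := h3.trans (add_le_add h5 h4)
    have h7 : BT T / 2 + BT T / 2 ≤ (∑' t : Bl T N, wE t.1) + BT T / 2 := by
      rw [ENNReal.add_halves]
      exact h6
    have h8 : BT T / 2 ≤ ∑' t : Bl T N, wE t.1 :=
      (ENNReal.add_le_add_iff_right (ENNReal.div_ne_top (BT_ne_top hT) (by norm_num))).1 h7
    calc BT T = 2 * (BT T / 2) := by rw [two_mul, ENNReal.add_halves]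
      _ ≤ _ := mul_le_mul' le_rfl h8
  -- a lower bound for the bridges at z
  have hb : ENNReal.ofReal (1 / (2 * Real.exp 1 * (T + 3))) ≤ bz (ENNReal.ofReal z) T N := by
    have h1 : ∀ t : Bl T N, ENNReal.ofReal (Real.exp (-1)) * wE t.1 ≤ ENNReal.ofReal z ^ t.1.length := by
      rintro ⟨t, ht⟩
      simp only
      rw [wE, ← ENNReal.ofReal_mul (Real.exp_nonneg _), ← ENNReal.ofReal_pow hz0.le]
      apply ENNReal.ofReal_le_ofReal
      rw [hz, mul_pow, mul_comm, ← Real.exp_nat_mul]
      refine mul_le_mul_of_nonneg_left (Real.exp_le_exp.2 ?_) (by positivity)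
      have h2 : (t.length : ℝ) ≤ N' := (by exact_mod_cast ht.2 : (t.length : ℝ) ≤ N).trans (Nat.floor_le hN'0.le)
      nlinarith [mul_le_mul_of_nonneg_left h2 hd]
    have h2 : ENNReal.ofReal (Real.exp (-1)) * ∑' t : Bl T N, wE t.1 ≤ bz (ENNReal.ofReal z) T N := by
      unfold bz
      rw [← ENNReal.tsum_mul_left]
      exact ENNReal.tsum_le_tsum h1
    have h3 := bT_lower hT
    have h4 : ENNReal.ofReal (1 / (T + 3)) ≤ 2 * ∑' t : Bl T N, wE t.1 := by
      refine le_trans ?_ hMk
      rw [← ofReal_bT hT]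
      exact ENNReal.ofReal_le_ofReal h3
    have h5 : ENNReal.ofReal (1 / (2 * (T + 3))) ≤ ∑' t : Bl T N, wE t.1 := by
      have e : ENNReal.ofReal (1 / (T + 3)) = 2 * ENNReal.ofReal (1 / (2 * (T + 3))) := by
        rw [← ENNReal.ofReal_ofNat, ← ENNReal.ofReal_mul (by norm_num)]
        congr 1
        field_simp
      rw [e] at h4
      exact (ENNReal.mul_le_mul_iff_right (by norm_num) (by norm_num)).1 h4
    refine le_trans (le_of_eq ?_) ((mul_le_mul' le_rfl h5).trans h2)
    rw [← ENNReal.ofReal_mul (Real.exp_nonneg _)]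
    congr 1
    rw [Real.exp_neg]
    have := Real.exp_pos 1
    field_simp
  -- k-fold concatenation
  set A : ℝ := 1 / (2 * Real.exp 1 * (T + 3)) with hA
  have hA0 : 0 < A := by positivity
  have hmain : A ≤ Real.exp (-(3 * T / (2 * s))) := by
    refine pow_le_of (c := z) (K := K) (q := 4 * (N + 1) + 1) (Real.exp_pos _) hz0 ?_
    intro k
    have h1 : ENNReal.ofReal A ^ (k + 1) * ENNReal.ofReal z ≤
        ∑ p ∈ Bx ((k + 1) * N + 1) (3 * ((k + 1) * T : ℕ) / 2), Gd (ENNReal.ofReal z) p := by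
      refine le_trans ?_ (bz_le (ENNReal.ofReal z) ((k + 1) * T) ((k + 1) * N))
      exact mul_le_mul' ((pow_le_pow_left' hb _).trans (bz_pow _ _ _ _)) le_rfl
    have h2 : ∑ p ∈ Bx ((k + 1) * N + 1) (3 * ((k + 1) * T : ℕ) / 2), Gd (ENNReal.ofReal z) p ≤
        ENNReal.ofReal (((4 * (((k + 1) * N + 1 : ℕ) : ℝ) + 1) ^ 2) *
          (K * Real.exp (-(3 * T / (2 * s))) ^ (k + 1))) := by
      have h3 : ∀ p ∈ Bx ((k + 1) * N + 1) (3 * ((k + 1) * T : ℕ) / 2), Gd (ENNReal.ofReal z) p ≤
          ENNReal.ofReal (K * Real.exp (-(3 * T / (2 * s))) ^ (k + 1)) := by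
        intro p hp
        refine (h p).trans (ENNReal.ofReal_le_ofReal (mul_le_mul_of_nonneg_left ?_ hK))
        rw [← Real.exp_nat_mul]
        apply Real.exp_le_exp.2
        unfold Bx at hp
        have h4 := (Finset.mem_filter.1 hp).2
        have h5 : (3 * ((k + 1) * T : ℕ) / 2 : ℝ) / s ≤ ‖phiTri p‖ / s := div_le_div_of_nonneg_right h4 hs.le
        have h6 : (3 * ((k + 1) * T : ℕ) / 2 : ℝ) / s = ((k + 1 : ℕ) : ℝ) * (3 * T / (2 * s)) := by
          push_cast
          field_simp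
        rw [h6] at h5
        linarith
      refine (Finset.sum_le_sum h3).trans ?_
      rw [Finset.sum_const, nsmul_eq_mul, ← ENNReal.ofReal_natCast,
        ← ENNReal.ofReal_mul (Nat.cast_nonneg _)]
      exact ENNReal.ofReal_le_ofReal (mul_le_mul_of_nonneg_right (Bx_card _ _) (by positivity))
    have h7 := h1.trans h2
    rw [← ENNReal.ofReal_pow hA0.le, ← ENNReal.ofReal_mul (by positivity),
      ENNReal.ofReal_le_ofReal_iff (by positivity)] at h7
    refine h7.trans (mul_le_mul_of_nonneg_right ?_ (by positivity))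
    refine pow_le_pow_left₀ (by positivity) ?_ 2
    push_cast
    have : (0 : ℝ) ≤ k := Nat.cast_nonneg k
    nlinarith
  have h1 := Real.log_le_log hA0 hmain
  rw [Real.log_exp, hA, Real.log_div one_ne_zero (by positivity), Real.log_one] at h1
  linarith

end XI72
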