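import Pool.Agent.XI72.D

/-!
XI72, part E: the correlation length of the hexagonal lattice, final form with two parameters.
-/

set_option autoImplicit false

open scoped ENNReal
open Filter Topology

namespace XI72

open SawNu HexObs

section dict

variable {f : ℕ → Fin 3 → ℂ}
  (hf : ∀ i a, f i a = (-1 : ℂ) ^ i * Complex.exp (2 * (Real.pi : ℂ) * Complex.I * ((a : ℕ) : ℂ) / 3))
include hf

open Classical in
lemma cnt_eq (n : ℕ) (x : ℂ) : ((saw f n).filter (fun s => pos f s n = x)).card =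
    ((WS hexL n).filter (fun l => phiTri (ps l n) = x)).card := by
  have hf' : ∀ i a, f i a = encHex.φ (encHex.st i.bodd a) := fun i a => by rw [hf, hex_enc]
  have h := encHex.bridge hf' n (fun w => if w = x then 1 else 0)
  have h1 : ∀ s : Fin n → Fin 3, pos f s n = ∑ i : Fin n, f (i : ℕ) (s i) := by
    intro s
    unfold SawNu.pos
    congr 1
    ext i
    simp
  have h2 : saw f n = Finset.univ.filter (fun s : Fin n → Fin 3 => SAC f n s) := by
    ext s
    rw [saw, Finset.mem_filter, Finset.mem_filter]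
    rfl
  have h3 : (((saw f n).filter (fun s => pos f s n = x)).card : ℝ) =
      ∑ s ∈ Finset.univ.filter (fun s : Fin n → Fin 3 => SAC f n s),
        if (∑ i : Fin n, f (i : ℕ) (s i)) = x then (1 : ℝ) else 0 := by
    rw [← Finset.sum_filter, Finset.sum_const, nsmul_eq_mul, mul_one, h2]
    congr 2
    ext s
    simp only [Finset.mem_filter, h1]
  have h4 : (((WS hexL n).filter (fun l => phiTri (ps l n) = x)).card : ℝ) =
      ∑ l ∈ WS hexL n, if encHex.φ l.sum = x then (1 : ℝ) else 0 := by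
    rw [← Finset.sum_filter, Finset.sum_const, nsmul_eq_mul, mul_one]
    congr 2
    ext l
    simp only [Finset.mem_filter]
    refine and_congr_right fun hl => ?_
    have : ps l n = l.sum := by
      rw [← (mem_WS.1 hl).1]
      unfold ps
      rw [List.take_length]
    rw [this]
    rfl
  have h5 : (((saw f n).filter (fun s => pos f s n = x)).card : ℝ) =
      ((WS hexL n).filter (fun l => phiTri (ps l n) = x)).card := by
    rw [h3, h4]
    exact h
  exact_mod_cast h5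

open Classical in
lemma cnt_gd (n : ℕ) (p : SawNu.Pt) : ((saw f n).filter (fun s => pos f s n = phiTri p)).card = gd n p := by
  rw [cnt_eq hf, gd]
  congr 1
  ext l
  simp only [Finset.mem_filter]
  refine and_congr_right fun _ => ⟨fun h => ?_, fun h => by rw [h]⟩
  have : phiTri (ps l n - p) = 0 := by rw [map_sub, h, sub_self]
  exact sub_eq_zero.1 (phiTri_inj _ this)

open Classical in
lemma cnt_zero (n : ℕ) {x : ℂ} (hx : ∀ p, phiTri p ≠ x) :
    ((saw f n).filter (fun s => pos f s n = x)).card = 0 := by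
  rw [cnt_eq hf, Finset.card_eq_zero, Finset.filter_eq_empty_iff]
  exact fun l _ => hx _

open Classical in
lemma mu_val {μ : ℝ} (hμ : μ = ⨅ n : {n : ℕ // 1 ≤ n}, (((saw f n.1).card : ℝ) ^ ((1 : ℝ) / (n.1 : ℝ)))) :
    1 / μ = xc := by
  have hf' : ∀ i a, f i a = encHex.φ (encHex.st i.bodd a) := fun i a => by rw [hf, hex_enc]
  have h : μ = muB := by
    rw [hμ]
    unfold muB
    congr 1
    funext n
    have h2 : (saw f n.1).card = (WS hexL n.1).card := by
      rw [← encHex.bridge_card hf' n.1]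
      congr 1
      ext s
      rw [saw, Finset.mem_filter, Finset.mem_filter]
      rfl
    rw [h2, PHWDict.aB_WS]
  rw [h, muB_eq, one_div_one_div]

end dict

open Classical in
/-- the set of the admissible lengths -/
def Adm (G : ℂ → ℝ) : Set ℝ := {s : ℝ | 0 < s ∧ ∃ C : ℝ, ∀ x : ℂ, G x ≤ C * Real.exp (-(‖x‖ / s))}

open Classical in
theorem core {a0 p0 : ℝ} (ha0 : 0 < a0) (hp0 : 0 < p0)
    (hL : ∀ a : ℝ, a0 < a → ∃ C : ℝ, 0 < C ∧ HexObs.T2.MeanLen a C) (hU : ∀ p : ℝ, p0 < p → TailUp p)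
    {f : ℕ → Fin 3 → ℂ}
    (hf : ∀ i a, f i a = (-1 : ℂ) ^ i * Complex.exp (2 * (Real.pi : ℂ) * Complex.I * ((a : ℕ) : ℂ) / 3))
    {G : ℝ → ℂ → ℝ} (hG : ∀ z x, G z x = ∑' n : ℕ, (((saw f n).filter (fun s => pos f s n = x)).card : ℝ) * z ^ n)
    {ξ : ℝ → ℝ} (hξ : ∀ z, ξ z = sInf (Adm (G z))) {ν1 ν2 : ℝ} (h1 : ν1 < 1 / a0) (h10 : 0 < ν1)
    (h2 : p0 / 2 < ν2) :
    ∃ c : ℝ, 0 < c ∧ ∃ d0 : ℝ, 0 < d0 ∧ ∀ d : ℝ, 0 < d → d < d0 →
      c * d ^ (-ν1) ≤ ξ (xc * Real.exp (-d)) ∧ ξ (xc * Real.exp (-d)) ≤ 2 * d ^ (-ν2) := by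
  obtain ⟨c, hc, d1, hd1, hlow⟩ := lower_pow ha0 hL h1 h10
  obtain ⟨d2, hd2, hup⟩ := upper_pow hp0 hU h2
  refine ⟨c, hc, min d1 d2, lt_min hd1 hd2, fun d hd hd0 => ?_⟩
  have hxc := xc_pos
  set z : ℝ := xc * Real.exp (-d) with hz
  have hz0 : 0 < z := by positivity
  obtain ⟨C, hC, hM⟩ := hup d hd (hd0.trans_le (min_le_right _ _))
  -- the values of G
  have hfin : ∀ p, Gd (ENNReal.ofReal z) p ≠ ⊤ := fun p =>
    ne_top_of_le_ne_top (ne_top_of_le_ne_top ENNReal.ofReal_ne_top (hM _ (norm_nonneg (phiTri p))))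
      (Gd_le_M _ p)
  have hGp : ∀ p, ENNReal.ofReal (G z (phiTri p)) = Gd (ENNReal.ofReal z) p := by
    intro p
    rw [Gd_real hz0.le (hfin p), hG]
    congr 1
    exact tsum_congr fun n => by rw [cnt_gd hf]
  have hG0 : ∀ x, 0 ≤ G z x := fun x => by
    rw [hG]
    exact tsum_nonneg fun n => by positivity
  have hGz : ∀ x, (∀ p, phiTri p ≠ x) → G z x = 0 := by
    intro x hx
    rw [hG]
    have : ∀ n : ℕ, (((saw f n).filter (fun s => pos f s n = x)).card : ℝ) * z ^ n = 0 := by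
      intro n
      rw [cnt_zero hf n hx]
      simp
    rw [tsum_congr this, tsum_zero]
  -- the upper bound
  have hmem : 2 * d ^ (-ν2) ∈ Adm (G z) := by
    refine ⟨by positivity, C, fun x => ?_⟩
    by_cases hx : ∀ p, phiTri p ≠ x
    · rw [hGz x hx]
      positivity
    · push Not at hx
      obtain ⟨p, rfl⟩ := hx
      have h3 : ENNReal.ofReal (G z (phiTri p)) ≤ ENNReal.ofReal (C * Real.exp (-(‖phiTri p‖ / (2 * d ^ (-ν2))))) := by
        rw [hGp p]
        exact (Gd_le_M _ p).trans (hM _ (norm_nonneg _))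
      rwa [ENNReal.ofReal_le_ofReal_iff (by positivity)] at h3
  have hbdd : BddBelow (Adm (G z)) := ⟨0, fun s hs => hs.1.le⟩
  refine ⟨?_, ?_⟩
  · rw [hξ]
    refine le_csInf ⟨_, hmem⟩ fun s hs => ?_
    obtain ⟨hs0, K, hK⟩ := hs
    have hK0 : 0 ≤ K := by
      have := (hG0 0).trans (hK 0)
      rw [norm_zero, zero_div, neg_zero, Real.exp_zero, mul_one] at this
      exact this
    refine hlow d hd (hd0.trans_le (min_le_left _ _)) s K hs0 hK0 fun p => ?_
    rw [← hz, ← hGp p]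
    exact ENNReal.ofReal_le_ofReal (hK _)
  · rw [hξ]
    exact csInf_le hbdd hmem

open Classical in
/-- **The bounds for the correlation length.** -/
theorem main {a0 p0 : ℝ} (ha0 : 0 < a0) (hp0 : 0 < p0)
    (hL : ∀ a : ℝ, a0 < a → ∃ C : ℝ, 0 < C ∧ HexObs.T2.MeanLen a C) (hU : ∀ p : ℝ, p0 < p → TailUp p)
    {f : ℕ → Fin 3 → ℂ}
    (hf : ∀ i a, f i a = (-1 : ℂ) ^ i * Complex.exp (2 * (Real.pi : ℂ) * Complex.I * ((a : ℕ) : ℂ) / 3))
    {μ : ℝ} (hμ : μ = ⨅ n : {n : ℕ // 1 ≤ n}, (((saw f n.1).card : ℝ) ^ ((1 : ℝ) / (n.1 : ℝ))))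
    {G : ℝ → ℂ → ℝ} (hG : ∀ z x, G z x = ∑' n : ℕ, (((saw f n).filter (fun s => pos f s n = x)).card : ℝ) * z ^ n)
    {ξ : ℝ → ℝ} (hξ : ∀ z, ξ z = sInf (Adm (G z))) {ν1 ν2 : ℝ} (h1 : ν1 < 1 / a0) (h2 : p0 / 2 < ν2) :
    ∀ᶠ z in 𝓝[<] (1 / μ), (1 / μ - z) ^ (-ν1) ≤ ξ z ∧ ξ z ≤ (1 / μ - z) ^ (-ν2) := by
  rw [mu_val hf hμ]
  have hxc := xc_pos
  have hxc1 : xc < 1 := by
    have h3 := xc_sq
    have h4 := Real.sqrt_nonneg 2
    have h5 : xc ^ 2 < 1 := by
      rw [h3, div_lt_one (by positivity)]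
      linarith
    nlinarith
  obtain ⟨ν1', h11, h12⟩ : ∃ ν1', max ν1 0 < ν1' ∧ ν1' < 1 / a0 :=
    exists_between (max_lt h1 (by positivity))
  obtain ⟨ν2', h21, h22⟩ : ∃ ν2', p0 / 2 < ν2' ∧ ν2' < ν2 := exists_between h2
  have h13 : ν1 < ν1' := (le_max_left _ _).trans_lt h11
  have h14 : 0 < ν1' := (le_max_right _ _).trans_lt h11
  have h23 : 0 < ν2' := by linarith
  obtain ⟨c, hc, d0, hd0, h⟩ := core ha0 hp0 hL hU hf hG hξ h12 h14 h21
  -- small u
  have hp1 : ∀ᶠ u in 𝓝[>] (0 : ℝ), u ^ (ν1' - ν1) ≤ c * (xc / 2) ^ ν1' := by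
    have ht : Tendsto (fun u : ℝ => u ^ (ν1' - ν1)) (𝓝[>] 0) (𝓝 0) := by
      have := (Real.continuousAt_rpow_const 0 (ν1' - ν1) (Or.inr (by linarith))).tendsto
      rw [Real.zero_rpow (by linarith)] at this
      exact this.mono_left nhdsWithin_le_nhds
    exact (ht.eventually_lt_const (by positivity : 0 < c * (xc / 2) ^ ν1')).mono fun u hu => hu.le
  have hp2 : ∀ᶠ u in 𝓝[>] (0 : ℝ), u ^ (ν2 - ν2') ≤ 1 / 2 := by
    have ht : Tendsto (fun u : ℝ => u ^ (ν2 - ν2')) (𝓝[>] 0) (𝓝 0) := by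
      have := (Real.continuousAt_rpow_const 0 (ν2 - ν2') (Or.inr (by linarith))).tendsto
      rw [Real.zero_rpow (by linarith)] at this
      exact this.mono_left nhdsWithin_le_nhds
    exact (ht.eventually_lt_const (by norm_num : (0 : ℝ) < 1 / 2)).mono fun u hu => hu.le
  have htu : Tendsto (fun z : ℝ => xc - z) (𝓝[<] xc) (𝓝[>] 0) := by
    refine tendsto_nhdsWithin_iff.2 ⟨?_, ?_⟩
    · have : Tendsto (fun z : ℝ => xc - z) (𝓝 xc) (𝓝 (xc - xc)) := (continuous_const.sub continuous_id).tendsto _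
      rw [sub_self] at this
      exact this.mono_left nhdsWithin_le_nhds
    · filter_upwards [self_mem_nhdsWithin] with z hz
      exact sub_pos.2 (show z < xc from hz)
  have hev : ∀ᶠ z in 𝓝[<] xc, xc * Real.exp (-(min d0 1)) < z := by
    refine (eventually_gt_nhds ?_).filter_mono nhdsWithin_le_nhds
    have : Real.exp (-(min d0 1)) < 1 := by
      rw [Real.exp_lt_one_iff]
      exact neg_neg_of_pos (lt_min hd0 one_pos)
    nlinarith
  filter_upwards [htu.eventually hp1, htu.eventually hp2, hev, self_mem_nhdsWithin] with z hz1 hz2 hz3 hz4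
  have hz4' : z < xc := hz4
  have hz0 : 0 < z := (by positivity : 0 < xc * Real.exp (-(min d0 1))).trans hz3
  set u : ℝ := xc - z with hu
  have hu0 : 0 < u := sub_pos.2 hz4
  set d : ℝ := Real.log (xc / z) with hd
  have hdpos : 0 < d := Real.log_pos ((one_lt_div hz0).2 hz4)
  have hze : xc * Real.exp (-d) = z := by
    rw [hd, Real.exp_neg, Real.exp_log (by positivity)]
    field_simp
  have hdmin : d < min d0 1 := by
    have h3 : Real.exp (-(min d0 1)) < Real.exp (-d) := by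
      rw [← hze] at hz3
      exact lt_of_mul_lt_mul_left hz3 hxc.le
    have := Real.exp_lt_exp.1 h3
    linarith
  have hue : u = xc * (1 - Real.exp (-d)) := by
    rw [hu, ← hze]
    ring
  have hud : u ≤ d := by
    have h3 := Real.add_one_le_exp (-d)
    have h4 : 1 - Real.exp (-d) ≤ d := by linarith
    have h5 : 0 ≤ 1 - Real.exp (-d) := by
      have := Real.exp_le_one_iff.2 (neg_nonpos.2 hdpos.le)
      linarith
    rw [hue]
    nlinarith
  have hdu : d ≤ 2 / xc * u := by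
    -- 1 - e^{-d} ≥ d / 2 for d ≤ 1
    have h3 : d / 2 ≤ 1 - Real.exp (-d) := by
      have h5 : d < 1 := lt_of_lt_of_le hdmin (min_le_right _ _)
      have h6 := Real.add_one_le_exp d
      have h4 : Real.exp (-d) ≤ (1 + d)⁻¹ := by
        rw [Real.exp_neg]
        exact inv_anti₀ (by linarith) (by linarith)
      have h7 : (1 + d)⁻¹ ≤ 1 - d / 2 := by
        rw [inv_le_iff_one_le_mul₀ (by linarith)]
        nlinarith
      linarith
    rw [hue]
    field_simp
    linarith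
  obtain ⟨e1, e2⟩ := h d hdpos (lt_of_lt_of_le hdmin (min_le_left _ _))
  rw [hze] at e1 e2
  refine ⟨le_trans ?_ e1, e2.trans ?_⟩
  · -- lower
    have h3 : (2 / xc * u) ^ (-ν1') ≤ d ^ (-ν1') :=
      Real.rpow_le_rpow_of_nonpos hdpos hdu (by linarith)
    refine le_trans ?_ (mul_le_mul_of_nonneg_left h3 hc.le)
    rw [Real.mul_rpow (by positivity) hu0.le]
    have h4 : (2 / xc) ^ (-ν1') = (xc / 2) ^ ν1' := by
      rw [Real.rpow_neg (by positivity), ← Real.inv_rpow (by positivity), inv_div]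
    rw [h4, ← mul_assoc]
    have h5 : u ^ (-ν1) = u ^ (ν1' - ν1) * u ^ (-ν1') := by
      rw [← Real.rpow_add hu0]
      congr 1
      ring
    rw [h5]
    exact mul_le_mul_of_nonneg_right hz1 (by positivity)
  · have h3 : d ^ (-ν2') ≤ u ^ (-ν2') := Real.rpow_le_rpow_of_nonpos hu0 hud (by linarith)
    have h5 : u ^ (-ν2') = u ^ (ν2 - ν2') * u ^ (-ν2) := by
      rw [← Real.rpow_add hu0]
      congr 1
      ring
    have h6 : 0 < u ^ (-ν2) := by positivity
    nlinarith [mul_le_mul_of_nonneg_right hz2 h6.le]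

end XI72
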