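import Pool.Agent.XI72.Fin
import Pool.Agent.NUF.FINT

/-!
XI72: the correlation length exponent `3 / 4` from the two bounds of the partition functions of the sphere lattice
(`NumUp`, `NFLow`), and from `NUI.Target`; the present upper bound with the lower exponent `3 / 4` from `NumUp` only.
-/

set_option autoImplicit false

open Filter Topology

namespace XI72

open SawNu HexObs
open _root_.Pool.Agent.NUF

/-- the mean length of the bridges from `NumUp` -/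
theorem meanLen_of (hN : NumUp) (a : ℝ) (ha : 4 / 3 < a) : ∃ C : ℝ, 0 < C ∧ HexObs.T2.MeanLen a C := by
  obtain ⟨C, hC, h⟩ := meanLen_of_ZZ (zzUp_of hN) ha
  refine ⟨C + 1, by linarith, fun T hT => (h T hT).trans ?_⟩
  refine mul_le_mul' (ENNReal.ofReal_le_ofReal ?_) le_rfl
  exact mul_le_mul_of_nonneg_right (by linarith) (by positivity)

/-- the upper tail from `NFLow` -/
theorem tailUp_of (hL : NFLow) (p : ℝ) (hp : 3 / 2 < p) : TailUp p :=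
  (HexObs.T2.all_n_up (τ1 := 1 / 3) (by norm_num) (longWalks_third hL) (by linarith)).1

open Classical in
/-- **The exponent of the correlation length is `3 / 4`**, from the two bounds. -/
theorem of_num (hN : NumUp) (hL : NFLow) {f : ℕ → Fin 3 → ℂ}
    (hf : ∀ i a, f i a = (-1 : ℂ) ^ i * Complex.exp (2 * (Real.pi : ℂ) * Complex.I * ((a : ℕ) : ℂ) / 3))
    {μ : ℝ} (hμ : μ = ⨅ n : {n : ℕ // 1 ≤ n}, (((saw f n.1).card : ℝ) ^ ((1 : ℝ) / (n.1 : ℝ))))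
    {G : ℝ → ℂ → ℝ}
    (hG : ∀ z x, G z x = ∑' n : ℕ, (((saw f n).filter (fun s => SawNu.pos f s n = x)).card : ℝ) * z ^ n)
    {ξ : ℝ → ℝ} (hξ : ∀ z, ξ z = sInf (Adm (G z))) :
    Tendsto (fun z => Real.log (ξ z) / Real.log (1 / (1 / μ - z))) (𝓝[<] (1 / μ)) (𝓝 (3 / 4)) :=
  limit (ν := 3 / 4) (by norm_num) (fun a ha => meanLen_of hN a (by linarith [show (1 : ℝ) / (3 / 4) = 4 / 3 by norm_num]))
    (fun p hp => tailUp_of hL p (by linarith)) hf hμ hG hξ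

open Classical in
/-- **The exponent of the correlation length is `3 / 4`**, from the target. -/
theorem of_target (h : NUI.Target) {f : ℕ → Fin 3 → ℂ}
    (hf : ∀ i a, f i a = (-1 : ℂ) ^ i * Complex.exp (2 * (Real.pi : ℂ) * Complex.I * ((a : ℕ) : ℂ) / 3))
    {μ : ℝ} (hμ : μ = ⨅ n : {n : ℕ // 1 ≤ n}, (((saw f n.1).card : ℝ) ^ ((1 : ℝ) / (n.1 : ℝ))))
    {G : ℝ → ℂ → ℝ}
    (hG : ∀ z x, G z x = ∑' n : ℕ, (((saw f n).filter (fun s => SawNu.pos f s n = x)).card : ℝ) * z ^ n)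
    {ξ : ℝ → ℝ} (hξ : ∀ z, ξ z = sInf (Adm (G z))) :
    Tendsto (fun z => Real.log (ξ z) / Real.log (1 / (1 / μ - z))) (𝓝[<] (1 / μ)) (𝓝 (3 / 4)) :=
  of_num (NUI.numUp_of_target h) (NUI.nfLow_of_target Pool.Agent.NUNC.windUp h) hf hμ hG hξ

open Classical in
/-- The bounds from `NumUp` alone: lower exponent `3 / 4`, upper exponent below `4 / 5`. -/
theorem of_numUp (hN : NumUp) {f : ℕ → Fin 3 → ℂ}
    (hf : ∀ i a, f i a = (-1 : ℂ) ^ i * Complex.exp (2 * (Real.pi : ℂ) * Complex.I * ((a : ℕ) : ℂ) / 3))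
    {μ : ℝ} (hμ : μ = ⨅ n : {n : ℕ // 1 ≤ n}, (((saw f n.1).card : ℝ) ^ ((1 : ℝ) / (n.1 : ℝ))))
    {G : ℝ → ℂ → ℝ}
    (hG : ∀ z x, G z x = ∑' n : ℕ, (((saw f n).filter (fun s => SawNu.pos f s n = x)).card : ℝ) * z ^ n)
    {ξ : ℝ → ℝ} (hξ : ∀ z, ξ z = sInf (Adm (G z))) :
    ∃ ν2 : ℝ, ν2 < 4 / 5 ∧ ∀ ν1 : ℝ, ν1 < 3 / 4 →
      ∀ᶠ z in 𝓝[<] (1 / μ), (1 / μ - z) ^ (-ν1) ≤ ξ z ∧ ξ z ≤ (1 / μ - z) ^ (-ν2) := by
  obtain ⟨p0, h0, h1, hU⟩ := tailUp_now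
  obtain ⟨ν2, h2, h3⟩ := exists_between (show p0 / 2 < 4 / 5 by linarith)
  refine ⟨ν2, h3, fun ν1 h4 => main (a0 := 4 / 3) (p0 := p0) (by norm_num) h0
    (meanLen_of hN) hU hf hμ hG hξ ?_ h2⟩
  exact h4.trans_eq (by norm_num)

end XI72
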