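import Pool.Agent.XI72.B
import Pool.Agent.XI72.C
import Pool.Agent.Saw39.Bridge

/-!
XI72, part D: bounds for the correlation length of the hexagonal lattice.
-/

set_option autoImplicit false

open scoped ENNReal
open Filter Topology

namespace XI72

open SawNu HexObs

/-! ### Bounds with powers of d -/

/-- the lower bound with a power -/
theorem lower_pow {a0 : ℝ} (ha0 : 0 < a0) (hL : ∀ a : ℝ, a0 < a → ∃ C : ℝ, 0 < C ∧ HexObs.T2.MeanLen a C)
    {ν : ℝ} (hν : ν < 1 / a0) (hν0 : 0 < ν) :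
    ∃ c : ℝ, 0 < c ∧ ∃ d0 : ℝ, 0 < d0 ∧ ∀ d : ℝ, 0 < d → d < d0 → ∀ s K : ℝ, 0 < s → 0 ≤ K →
      (∀ p, Gd (ENNReal.ofReal (xc * Real.exp (-d))) p ≤
        ENNReal.ofReal (K * Real.exp (-(‖phiTri p‖ / s)))) → c * d ^ (-ν) ≤ s := by
  -- a with ν < 1 / a
  obtain ⟨a, ha1, ha2⟩ : ∃ a, a0 < a ∧ a < 1 / ν :=
    exists_between ((lt_one_div hν0 ha0).1 hν)
  have ha : 0 < a := ha0.trans ha1
  have hνa : ν * a < 1 := by
    rw [lt_div_iff₀ hν0] at ha2
    linarith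
  obtain ⟨C, hC, hM⟩ := hL a ha1
  set ε : ℝ := 1 - ν * a with hε
  have hε0 : 0 < ε := by linarith
  set B : ℝ := 8 * Real.exp 1 with hB
  have hB0 : 0 < B := by positivity
  -- s ≥ c1 T ^ (1 - ε)
  have h1 : ∀ (T : ℕ) (s : ℝ), 1 ≤ T → 0 < s → 3 * (T : ℝ) / (2 * s) ≤ Real.log (2 * Real.exp 1 * (T + 3)) →
      3 / 2 * ε / B ^ ε * (T : ℝ) ^ (ν * a) ≤ s := by
    intro T s hT hs h
    have hT1 : (1 : ℝ) ≤ T := by exact_mod_cast hT
    have h2 : Real.log (2 * Real.exp 1 * (T + 3)) ≤ (B * T) ^ ε / ε := by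
      refine (Real.log_le_log (by positivity) ?_).trans (Real.log_le_rpow_div (by positivity) hε0)
      rw [hB]
      nlinarith [Real.exp_pos 1]
    have h3 : 3 * (T : ℝ) / (2 * s) ≤ (B * T) ^ ε / ε := h.trans h2
    rw [div_le_div_iff₀ (by positivity) hε0, Real.mul_rpow hB0.le (by positivity)] at h3
    have h4 : (T : ℝ) ^ ε * (T : ℝ) ^ (ν * a) = T := by
      rw [← Real.rpow_add (by positivity), hε]
      rw [sub_add_cancel, Real.rpow_one]
    have hTe : 0 < (T : ℝ) ^ ε := by positivity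
    have hBe : 0 < B ^ ε := by positivity
    rw [div_mul_eq_mul_div, div_le_iff₀ hBe]
    have h5 : 3 * ((T : ℝ) ^ ε * (T : ℝ) ^ (ν * a)) * ε ≤ B ^ ε * (T : ℝ) ^ ε * (2 * s) := by
      rw [h4]
      exact h3
    have h6 : (T : ℝ) ^ ε * (3 / 2 * ε * (T : ℝ) ^ (ν * a)) ≤ (T : ℝ) ^ ε * (s * B ^ ε) := by
      nlinarith
    exact le_of_mul_le_mul_left h6 hTe
  set D : ℝ := 2 * C with hD
  have hD0 : 0 < D := by positivity
  refine ⟨3 / 2 * ε / B ^ ε * ((1 / 2) ^ (ν * a) * D ^ (-ν)), by positivity, (D * 2 ^ a)⁻¹,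
    by positivity, fun d hd hd0 s K hs hK h => ?_⟩
  set Y : ℝ := (D * d)⁻¹ ^ (1 / a) with hY
  have hDd : 0 < D * d := by positivity
  have hY0 : 0 ≤ Y := by positivity
  have hYa : Y ^ a = (D * d)⁻¹ := by
    rw [hY, ← Real.rpow_mul (by positivity), one_div_mul_cancel ha.ne', Real.rpow_one]
  have hY2 : 2 ≤ Y := by
    have h2 : (2 : ℝ) ^ a ≤ (D * d)⁻¹ := by
      rw [le_inv_comm₀ (by positivity) hDd]
      have h3 : d * (D * 2 ^ a) < 1 := by
        rwa [lt_inv_comm₀ hd (by positivity), ← one_div, lt_div_iff₀ hd, mul_comm] at hd0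
      rw [← one_div, le_div_iff₀ (by positivity)]
      nlinarith
    by_contra h3
    rw [not_le] at h3
    have := Real.rpow_lt_rpow hY0 h3 ha
    rw [hYa] at this
    linarith
  set T : ℕ := ⌊Y⌋₊ with hT
  have hT1 : 1 ≤ T := by
    rw [hT, Nat.one_le_floor_iff]
    linarith
  have hTY : (T : ℝ) ≤ Y := Nat.floor_le hY0
  have hTY2 : Y / 2 ≤ T := by
    have := Nat.lt_floor_add_one Y
    rw [← hT] at this
    linarith
  have h2 : d * (2 * C * (T : ℝ) ^ a) ≤ 1 := by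
    have h3 : (T : ℝ) ^ a ≤ (D * d)⁻¹ := by
      rw [← hYa]
      exact Real.rpow_le_rpow (by positivity) hTY ha.le
    calc d * (2 * C * (T : ℝ) ^ a) = D * d * (T : ℝ) ^ a := by rw [hD]; ring
      _ ≤ D * d * (D * d)⁻¹ := mul_le_mul_of_nonneg_left h3 hDd.le
      _ = 1 := mul_inv_cancel₀ hDd.ne'
  have h3 := lower hM hC hT1 hd.le h2 hs hK h
  refine le_trans ?_ (h1 T s hT1 hs h3)
  refine le_of_eq_of_le ?_ (mul_le_mul_of_nonneg_left
    (Real.rpow_le_rpow (by positivity) hTY2 (mul_nonneg hν0.le ha.le)) (by positivity))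
  rw [mul_assoc, mul_assoc]
  congr 1
  have h4 : Y ^ (ν * a) = D ^ (-ν) * d ^ (-ν) := by
    rw [hY, ← Real.rpow_mul (by positivity), ← Real.mul_rpow hD0.le hd.le, Real.inv_rpow hDd.le,
      ← Real.rpow_neg hDd.le]
    congr 1
    field_simp
  have h5 : Y / 2 = 1 / 2 * Y := by ring
  rw [h5, Real.mul_rpow (by norm_num) hY0, h4]

/-- the upper bound with a power -/
theorem upper_pow {p0 : ℝ} (hp0 : 0 < p0) (hU : ∀ p : ℝ, p0 < p → TailUp p) {ν : ℝ} (hν : p0 / 2 < ν) :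
    ∃ d0 : ℝ, 0 < d0 ∧ ∀ d : ℝ, 0 < d → d < d0 → ∃ C : ℝ, 0 ≤ C ∧ ∀ R : ℝ, 0 ≤ R →
      M (ENNReal.ofReal (xc * Real.exp (-d))) false R ≤
        ENNReal.ofReal (C * Real.exp (-(R / (2 * d ^ (-ν))))) := by
  obtain ⟨p, hp1, hp2⟩ : ∃ p, p0 < p ∧ p < 2 * ν := exists_between (by linarith)
  have hp : 0 < p := hp0.trans hp1
  have hν0 : 0 < ν := by linarith
  obtain ⟨T0, hT0, h⟩ := decay hp (by linarith) (hU p hp1) (θ := ν)
  refine ⟨T0 ^ (-1 / ν), by positivity, fun d hd hd0 => ?_⟩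
  set T : ℝ := d ^ (-ν) with hT
  have hTd : T ^ (-1 / ν) = d := by
    rw [hT, ← Real.rpow_mul hd.le]
    have : -ν * (-1 / ν) = 1 := by field_simp
    rw [this, Real.rpow_one]
  have hTpos : 0 < T := by positivity
  have hTT : T0 ≤ T := by
    by_contra hlt
    rw [not_le] at hlt
    have h1 : T0 ^ (-1 / ν) < T ^ (-1 / ν) := by
      apply Real.rpow_lt_rpow_of_neg hTpos hlt
      apply div_neg_of_neg_of_pos (by norm_num) hν0
    rw [hTd] at h1
    linarith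
  obtain ⟨C, hC, h1⟩ := h T hTT d hd (by rw [hTd])
  refine ⟨C, hC, fun R hR => (h1 R hR).trans (ENNReal.ofReal_le_ofReal
    (mul_le_mul_of_nonneg_left (Real.exp_le_exp.2 ?_) hC))⟩
  have h2 : T + 1 ≤ 2 * T := by linarith
  have h3 : R / (2 * T) ≤ R / (T + 1) := div_le_div_of_nonneg_left hR (by linarith) h2
  linarith

/-! ### The generating function of the two-point function -/

open Classical in
/-- the number of walks with n steps from 0 to p -/
noncomputable def gd (n : ℕ) (p : SawNu.Pt) : ℕ := ((WS hexL n).filter fun l => ps l n = p).card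

open Classical in
theorem Gd_tsum (z : ℝ≥0∞) (p : SawNu.Pt) : Gd z p = ∑' n : ℕ, (gd n p : ℝ≥0∞) * z ^ n := by
  unfold Gd
  have h1 := (Equiv.sigmaFiberEquiv (fun l : {l : List SawNu.Pt // l ∈ Sw false ∧ ps l l.length = p} =>
    l.1.length)).tsum_eq (fun l => z ^ l.1.length)
  rw [← h1, ENNReal.tsum_sigma']
  refine tsum_congr (fun n => ?_)
  have h2 : ∀ x : {l : {l : List SawNu.Pt // l ∈ Sw false ∧ ps l l.length = p} // l.1.length = n},
      z ^ (((Equiv.sigmaFiberEquiv (fun l : {l : List SawNu.Pt // l ∈ Sw false ∧ ps l l.length = p} =>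
        l.1.length)) ⟨n, x⟩).1.length) = z ^ n := by
    intro x
    have := x.2
    simp only [Equiv.sigmaFiberEquiv, Equiv.coe_fn_mk]
    rw [this]
  simp only [h2]
  let e : {l : {l : List SawNu.Pt // l ∈ Sw false ∧ ps l l.length = p} // l.1.length = n} ≃
      ((WS hexL n).filter (fun l => ps l n = p)) :=
    { toFun := fun x => ⟨x.1.1, Finset.mem_filter.2 ⟨mem_WS.2 ⟨x.2, x.1.2.1.1, x.1.2.1.2⟩, by
        have h := x.1.2.2
        rwa [x.2] at h⟩⟩
      invFun := fun y => ⟨⟨y.1, by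
        have h := Finset.mem_filter.1 y.2
        have h' := mem_WS.1 h.1
        refine ⟨⟨h'.2.1, h'.2.2⟩, ?_⟩
        rw [h'.1]
        exact h.2⟩, (mem_WS.1 (Finset.mem_filter.1 y.2).1).1⟩
      left_inv := fun x => rfl
      right_inv := fun y => rfl }
  rw [← e.symm.tsum_eq (fun _ => z ^ n)]
  rw [tsum_fintype, Finset.sum_const, nsmul_eq_mul, Finset.card_univ, Fintype.card_coe, gd]

theorem Gd_le_M (z : ℝ≥0∞) (p : SawNu.Pt) : Gd z p ≤ M z false ‖phiTri p‖ := by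
  unfold Gd M
  let φ : {l : List SawNu.Pt // l ∈ Sw false ∧ ps l l.length = p} →
      {l : List SawNu.Pt // l ∈ Sw false ∧ Rch ‖phiTri p‖ l} := fun l =>
    ⟨l.1, l.2.1, ⟨l.1.length, le_rfl, by rw [l.2.2]⟩⟩
  have hφ : Function.Injective φ := fun a b h => Subtype.ext (congrArg (fun x => x.1) h)
  exact ENNReal.tsum_comp_le_tsum_of_injective hφ fun l : {l : List SawNu.Pt // l ∈ Sw false ∧
    Rch ‖phiTri p‖ l} => z ^ l.1.length

/-- the real generating function -/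
theorem Gd_real {z : ℝ} (hz : 0 ≤ z) {p : SawNu.Pt} (hfin : Gd (ENNReal.ofReal z) p ≠ ⊤) :
    Gd (ENNReal.ofReal z) p = ENNReal.ofReal (∑' n : ℕ, (gd n p : ℝ) * z ^ n) := by
  have h1 : ∀ n, (gd n p : ℝ≥0∞) * ENNReal.ofReal z ^ n = ENNReal.ofReal ((gd n p : ℝ) * z ^ n) := by
    intro n
    rw [ENNReal.ofReal_mul (Nat.cast_nonneg _), ENNReal.ofReal_natCast, ENNReal.ofReal_pow hz]
  have h2 : Gd (ENNReal.ofReal z) p = ∑' n : ℕ, ENNReal.ofReal ((gd n p : ℝ) * z ^ n) := by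
    rw [Gd_tsum]
    exact tsum_congr h1
  have h3 : ∀ n, 0 ≤ (gd n p : ℝ) * z ^ n := fun n => by positivity
  rw [h2, ENNReal.ofReal_tsum_of_nonneg h3]
  rw [h2] at hfin
  have h4 := ENNReal.summable_toReal hfin
  refine h4.congr fun n => ?_
  rw [ENNReal.toReal_ofReal (h3 n)]

end XI72
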