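import Pool.Agent.XI72.A
import Pool.Agent.PHW8.Final8b
import Pool.Agent.PHW.Dict

/-!
XI72: exponential decay of the two-point function of the self-avoiding walk of the hexagonal lattice below the critical
point, from the tail of the size of the n-step walk.
-/

set_option autoImplicit false

open scoped ENNReal

namespace XI72

open SawNu HexObs

/-- the tail of the size from above, exponent p for the square -/
def TailUp (p : ℝ) : Prop := ∃ c : ℝ, 0 < c ∧ ∀ n : ℕ, 1 ≤ n →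
  (((WS hexL n).filter (fun l => c⁻¹ * (n : ℝ) ^ p < S4 hexRot l)).card : ℝ) ≤
    c⁻¹ * Real.exp (-(n : ℝ) ^ c) * ((WS hexL n).card : ℝ)

/-- powers against stretched exponentials -/
lemma pow_exp_bdd {a c κ : ℝ} (hc : 0 < c) (hκ : 0 < κ) :
    ∃ K : ℝ, 0 ≤ K ∧ ∀ n : ℕ, (n : ℝ) ^ a * Real.exp (-(κ * (n : ℝ) ^ c)) ≤ K := by
  have h1 : Filter.Tendsto (fun n : ℕ => (n : ℝ) ^ c) Filter.atTop Filter.atTop :=
    (tendsto_rpow_atTop hc).comp tendsto_natCast_atTop_atTop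
  have h2 := (tendsto_rpow_mul_exp_neg_mul_atTop_nhds_zero (a / c) κ hκ).comp h1
  have h3 : Filter.Tendsto (fun n : ℕ => (n : ℝ) ^ a * Real.exp (-(κ * (n : ℝ) ^ c))) Filter.atTop (nhds 0) := by
    refine h2.congr (fun n => ?_)
    simp only [Function.comp]
    rw [← Real.rpow_mul (Nat.cast_nonneg _), mul_div_cancel₀ _ hc.ne', neg_mul]
  obtain ⟨K, hK⟩ := h3.bddAbove_range
  exact ⟨max K 0, le_max_right _ _, fun n => le_max_of_le_left (hK ⟨n, rfl⟩)⟩

lemma muB_eq : muB = 1 / xc := le_antisymm muB_le le_muB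

/-- the number of walks is at most a power times the exponential -/
theorem poly : ∃ C : ℝ, 1 ≤ C ∧ ∀ n : ℕ, 1 ≤ n → ((WS hexL n).card : ℝ) * xc ^ n ≤ C * (n : ℝ) ^ C := by
  obtain ⟨C, hC, h⟩ := PHW_all
  refine ⟨C, hC, fun n hn => ?_⟩
  have h1 := h n hn
  rw [PHWDict.aB_WS, muB_eq, div_pow, one_pow, mul_one_div, le_div_iff₀ (pow_pos xc_pos n)] at h1
  exact h1

lemma norm_ps_le {b : Bool} {l : List SawNu.Pt} (h : TW hexL.S b l) {i : ℕ} (hi : i ≤ l.length) :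
    ‖phiTri (ps l i)‖ ≤ i := by
  induction i with
  | zero => simp
  | succ i ih =>
    have := norm_succ h (i := i) (by omega)
    have h2 := ih (by omega)
    push_cast
    linarith

open Classical in
/-- the number of n-step walks that reach the distance R, weight z ^ n -/
noncomputable def tm (z R : ℝ) (n : ℕ) : ℝ := (((WS hexL n).filter (fun l => Rch R l)).card : ℝ) * z ^ n

lemma tm_nonneg {z R : ℝ} (hz : 0 ≤ z) (n : ℕ) : 0 ≤ tm z R n := by
  unfold tm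
  positivity

lemma M_tm {z : ℝ} (hz : 0 ≤ z) (R : ℝ) :
    M (ENNReal.ofReal z) false R = ∑' n : ℕ, ENNReal.ofReal (tm z R n) := by
  classical
  rw [M_tsum]
  refine tsum_congr (fun n => ?_)
  unfold tm
  rw [ENNReal.ofReal_mul (Nat.cast_nonneg _), ENNReal.ofReal_pow hz, ENNReal.ofReal_natCast]

/-- walks with less than R steps do not reach R -/
lemma tm_small {z R : ℝ} {n : ℕ} (h : (n : ℝ) < R) : tm z R n = 0 := by
  classical
  unfold tm
  rw [Finset.filter_false_of_mem, Finset.card_empty, Nat.cast_zero, zero_mul]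
  intro l hl
  rw [mem_WS] at hl
  rintro ⟨j, hj, hh⟩
  have h1 := norm_ps_le hl.2.1 hj
  have h2 : (j : ℝ) ≤ n := by
    rw [← hl.1]
    exact_mod_cast hj
  linarith

lemma tm_le_card {z R : ℝ} (hz : 0 ≤ z) (n : ℕ) : tm z R n ≤ ((WS hexL n).card : ℝ) * z ^ n := by
  classical
  unfold tm
  apply mul_le_mul_of_nonneg_right _ (by positivity)
  exact_mod_cast Finset.card_filter_le _ _

/-- **the bound of one term** -/
theorem tm_le {p θ : ℝ} (hp : 0 < p) (hθ : p / 2 < θ) (hT : TailUp p) :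
    ∃ K : ℝ, 0 ≤ K ∧ ∀ (T d : ℝ), 1 ≤ T → T ^ (-1 / θ) ≤ d → ∀ n : ℕ, T ≤ n →
      tm (xc * Real.exp (-d)) T n ≤ K * ((n : ℝ) ^ 3)⁻¹ := by
  classical
  obtain ⟨c, hc, h⟩ := hT
  obtain ⟨C, hC, hP⟩ := poly
  have hθ0 : 0 < θ := by linarith
  have hxc := xc_pos
  set κ : ℝ := (2 * c⁻¹) ^ (-1 / (2 * θ)) with hκ
  have hκ0 : 0 < κ := by positivity
  set c4 : ℝ := 1 - p / (2 * θ) with hc4
  have hc40 : 0 < c4 := by
    rw [hc4, sub_pos, div_lt_one (by positivity)]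
    linarith
  obtain ⟨K1, hK1, h1⟩ := pow_exp_bdd (a := C + 3) hc one_pos
  obtain ⟨K2, hK2, h2⟩ := pow_exp_bdd (a := C + 3) hc40 hκ0
  refine ⟨c⁻¹ * C * K1 + C * K2, by positivity, fun T d hT1 hd n hn => ?_⟩
  have hn1 : (1 : ℝ) ≤ n := hT1.trans hn
  have hn0 : 1 ≤ n := by exact_mod_cast hn1
  have hnp : (0 : ℝ) < n := by linarith
  have hT0 : 0 < T := by linarith
  have hd0 : 0 < d := lt_of_lt_of_le (by positivity) hd
  have hz0 : 0 ≤ xc * Real.exp (-d) := by positivity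
  have hpow : (xc * Real.exp (-d)) ^ n = xc ^ n * Real.exp (-(d * n)) := by
    rw [mul_pow, ← Real.exp_nat_mul]
    congr 2
    ring
  have hn3 : (0 : ℝ) < (n : ℝ) ^ 3 := by positivity
  have hsplit : ∀ x : ℝ, (n : ℝ) ^ (C + 3) * x = ((n : ℝ) ^ C * x) * (n : ℝ) ^ 3 := by
    intro x
    rw [Real.rpow_add hnp, show (3 : ℝ) = ((3 : ℕ) : ℝ) by norm_num, Real.rpow_natCast]
    ring
  have b1 : (n : ℝ) ^ C * Real.exp (-(n : ℝ) ^ c) ≤ K1 * ((n : ℝ) ^ 3)⁻¹ := by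
    have := h1 n
    rw [one_mul, hsplit] at this
    rw [← div_eq_mul_inv, le_div_iff₀ hn3]
    exact this
  have b2 : (n : ℝ) ^ C * Real.exp (-(κ * (n : ℝ) ^ c4)) ≤ K2 * ((n : ℝ) ^ 3)⁻¹ := by
    have := h2 n
    rw [hsplit] at this
    rw [← div_eq_mul_inv, le_div_iff₀ hn3]
    exact this
  have hPn := hP n hn0
  rcases lt_or_ge (c⁻¹ * (n : ℝ) ^ p) (T ^ 2 / 2) with hcase | hcase
  · -- short walks that go far
    have hcard : ((((WS hexL n).filter (fun l => Rch T l)).card : ℕ) : ℝ) ≤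
        c⁻¹ * Real.exp (-(n : ℝ) ^ c) * ((WS hexL n).card : ℝ) := by
      refine le_trans ?_ (h n hn0)
      have : ((WS hexL n).filter (fun l => Rch T l)).card ≤
          ((WS hexL n).filter (fun l => c⁻¹ * (n : ℝ) ^ p < S4 hexRot l)).card := by
        apply Finset.card_le_card
        intro l hl
        rw [Finset.mem_filter] at hl ⊢
        refine ⟨hl.1, ?_⟩
        obtain ⟨j, hj, hh⟩ := hl.2
        have hlen := (mem_WS.1 hl.1).1
        have h3 := norm_pos_le encHex hexRot hup_hex hl.1 (i := j) (by omega)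
        have h4 : T ^ 2 ≤ ‖phiTri (ps l j)‖ ^ 2 := pow_le_pow_left₀ hT0.le hh 2
        have h5 : ‖phiTri (ps l j)‖ ^ 2 ≤ 2 * S4 hexRot l := h3
        linarith
      exact_mod_cast this
    have e1 : tm (xc * Real.exp (-d)) T n ≤ c⁻¹ * Real.exp (-(n : ℝ) ^ c) * ((WS hexL n).card : ℝ) * xc ^ n := by
      unfold tm
      rw [hpow]
      have e2 : Real.exp (-(d * n)) ≤ 1 := Real.exp_le_one_iff.2 (by nlinarith)
      have e3 : (0 : ℝ) ≤ xc ^ n := by positivity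
      calc _ ≤ (c⁻¹ * Real.exp (-(n : ℝ) ^ c) * ((WS hexL n).card : ℝ)) * (xc ^ n * Real.exp (-(d * n))) := by
            apply mul_le_mul_of_nonneg_right _ (by positivity)
            convert hcard
        _ ≤ (c⁻¹ * Real.exp (-(n : ℝ) ^ c) * ((WS hexL n).card : ℝ)) * (xc ^ n * 1) := by
            apply mul_le_mul_of_nonneg_left _ (by positivity)
            exact mul_le_mul_of_nonneg_left e2 e3
        _ = _ := by ring
    refine e1.trans ?_
    calc c⁻¹ * Real.exp (-(n : ℝ) ^ c) * ((WS hexL n).card : ℝ) * xc ^ n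
        = c⁻¹ * Real.exp (-(n : ℝ) ^ c) * (((WS hexL n).card : ℝ) * xc ^ n) := by ring
      _ ≤ c⁻¹ * Real.exp (-(n : ℝ) ^ c) * (C * (n : ℝ) ^ C) := mul_le_mul_of_nonneg_left hPn (by positivity)
      _ = c⁻¹ * C * ((n : ℝ) ^ C * Real.exp (-(n : ℝ) ^ c)) := by ring
      _ ≤ c⁻¹ * C * (K1 * ((n : ℝ) ^ 3)⁻¹) := mul_le_mul_of_nonneg_left b1 (by positivity)
      _ ≤ _ := by
        have : 0 ≤ C * K2 * ((n : ℝ) ^ 3)⁻¹ := by positivity
        nlinarith
  · -- long walks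
    have e1 : T ^ 2 ≤ 2 * c⁻¹ * (n : ℝ) ^ p := by linarith
    have e2 : κ * (n : ℝ) ^ c4 ≤ d * n := by
      have e3 : (2 * c⁻¹ * (n : ℝ) ^ p) ^ (-1 / (2 * θ)) ≤ (T ^ 2) ^ (-1 / (2 * θ)) := by
        apply Real.rpow_le_rpow_of_nonpos (by positivity) e1
        rw [neg_div]
        exact neg_nonpos.2 (by positivity)
      have e4 : (T ^ 2) ^ (-1 / (2 * θ)) = T ^ (-1 / θ) := by
        rw [← Real.rpow_natCast T 2, ← Real.rpow_mul hT0.le]
        congr 1
        push_cast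
        field_simp
      have e5 : (2 * c⁻¹ * (n : ℝ) ^ p) ^ (-1 / (2 * θ)) = κ * (n : ℝ) ^ (-(p / (2 * θ))) := by
        rw [Real.mul_rpow (by positivity) (by positivity), ← Real.rpow_mul hnp.le]
        congr 2
        field_simp
      rw [e4, e5] at e3
      have e6 : κ * (n : ℝ) ^ (-(p / (2 * θ))) ≤ d := e3.trans hd
      have e7 : κ * (n : ℝ) ^ c4 = κ * (n : ℝ) ^ (-(p / (2 * θ))) * n := by
        rw [hc4, sub_eq_neg_add, Real.rpow_add hnp, Real.rpow_one]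
        ring
      rw [e7]
      exact mul_le_mul_of_nonneg_right e6 hnp.le
    refine (tm_le_card hz0 n).trans ?_
    rw [hpow]
    calc ((WS hexL n).card : ℝ) * (xc ^ n * Real.exp (-(d * n)))
        = (((WS hexL n).card : ℝ) * xc ^ n) * Real.exp (-(d * n)) := by ring
      _ ≤ (C * (n : ℝ) ^ C) * Real.exp (-(κ * (n : ℝ) ^ c4)) := by
          apply mul_le_mul hPn _ (Real.exp_pos _).le (by positivity)
          exact Real.exp_le_exp.2 (by linarith)
      _ = C * ((n : ℝ) ^ C * Real.exp (-(κ * (n : ℝ) ^ c4))) := by ring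
      _ ≤ C * (K2 * ((n : ℝ) ^ 3)⁻¹) := mul_le_mul_of_nonneg_left b2 (by linarith)
      _ ≤ _ := by
        have : 0 ≤ c⁻¹ * C * K1 * ((n : ℝ) ^ 3)⁻¹ := by positivity
        nlinarith

/-- **the walks that reach the distance T** -/
theorem M_small {p θ : ℝ} (hp : 0 < p) (hθ : p / 2 < θ) (hT : TailUp p) :
    ∃ T0 : ℝ, 1 ≤ T0 ∧ ∀ T : ℝ, T0 ≤ T → ∀ d : ℝ, T ^ (-1 / θ) ≤ d →
      M (ENNReal.ofReal (xc * Real.exp (-d))) false T ≤ ENNReal.ofReal (Real.exp (-1)) := by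
  obtain ⟨K, hK, h⟩ := tm_le hp hθ hT
  have hxc := xc_pos
  have hS : Summable (fun n : ℕ => ((n : ℝ) ^ 2)⁻¹) := Real.summable_nat_pow_inv.2 (by norm_num)
  set S : ℝ := ∑' n : ℕ, ((n : ℝ) ^ 2)⁻¹ with hSd
  have hS0 : 0 ≤ S := tsum_nonneg (fun n => by positivity)
  refine ⟨max 1 (K * S * Real.exp 1), le_max_left _ _, fun T hT0 d hd => ?_⟩
  have hT1 : 1 ≤ T := (le_max_left _ _).trans hT0
  have hT2 : K * S * Real.exp 1 ≤ T := (le_max_right _ _).trans hT0
  have hTp : 0 < T := by linarith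
  have hz0 : 0 ≤ xc * Real.exp (-d) := by positivity
  rw [M_tm hz0]
  have h1 : ∀ n : ℕ, tm (xc * Real.exp (-d)) T n ≤ K / T * ((n : ℝ) ^ 2)⁻¹ := by
    intro n
    rcases lt_or_ge (n : ℝ) T with hn | hn
    · rw [tm_small hn]
      positivity
    · refine (h T d hT1 hd n hn).trans ?_
      have hn0 : (0 : ℝ) < n := by linarith
      have h2 : T * (n : ℝ) ^ 2 ≤ (n : ℝ) ^ 3 := by
        have : (0 : ℝ) ≤ (n : ℝ) ^ 2 := by positivity
        nlinarith
      have h3 : ((n : ℝ) ^ 3)⁻¹ ≤ (T * (n : ℝ) ^ 2)⁻¹ := inv_anti₀ (by positivity) h2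
      calc K * ((n : ℝ) ^ 3)⁻¹ ≤ K * (T * (n : ℝ) ^ 2)⁻¹ := mul_le_mul_of_nonneg_left h3 hK
        _ = _ := by rw [mul_inv]; ring
  calc ∑' n : ℕ, ENNReal.ofReal (tm (xc * Real.exp (-d)) T n)
      ≤ ∑' n : ℕ, ENNReal.ofReal (K / T * ((n : ℝ) ^ 2)⁻¹) :=
        ENNReal.tsum_le_tsum (fun n => ENNReal.ofReal_le_ofReal (h1 n))
    _ = ENNReal.ofReal (∑' n : ℕ, K / T * ((n : ℝ) ^ 2)⁻¹) :=
        (ENNReal.ofReal_tsum_of_nonneg (fun n => by positivity) (hS.mul_left _)).symm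
    _ ≤ _ := by
        apply ENNReal.ofReal_le_ofReal
        rw [tsum_mul_left, ← hSd, div_mul_eq_mul_div, div_le_iff₀ hTp]
        have h4 : Real.exp (-1) * (K * S * Real.exp 1) ≤ Real.exp (-1) * T :=
          mul_le_mul_of_nonneg_left hT2 (Real.exp_pos _).le
        have h5 : Real.exp (-1) * (K * S * Real.exp 1) = K * S := by
          have : Real.exp (-1) * Real.exp 1 = 1 := by rw [← Real.exp_add]; simp
          calc Real.exp (-1) * (K * S * Real.exp 1) = K * S * (Real.exp (-1) * Real.exp 1) := by ring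
            _ = _ := by rw [this, mul_one]
        linarith

/-- the susceptibility is finite below the critical point -/
theorem M_fin {d : ℝ} (hd : 0 < d) (R : ℝ) : M (ENNReal.ofReal (xc * Real.exp (-d))) false R ≠ ⊤ := by
  obtain ⟨C, hC, hP⟩ := poly
  have hxc := xc_pos
  have hz0 : 0 ≤ xc * Real.exp (-d) := by positivity
  obtain ⟨K, hK, h1⟩ := pow_exp_bdd (a := C + 2) (c := 1) one_pos hd
  have hS : Summable (fun n : ℕ => ((n : ℝ) ^ 2)⁻¹) := Real.summable_nat_pow_inv.2 (by norm_num)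
  have hb : ∀ n : ℕ, tm (xc * Real.exp (-d)) R (n + 1) ≤ C * K * (((n + 1 : ℕ) : ℝ) ^ 2)⁻¹ := by
    intro n
    have hnp : (0 : ℝ) < ((n + 1 : ℕ) : ℝ) := by positivity
    refine (tm_le_card hz0 _).trans ?_
    have hpow : (xc * Real.exp (-d)) ^ (n + 1) = xc ^ (n + 1) * Real.exp (-(d * ((n + 1 : ℕ) : ℝ))) := by
      rw [mul_pow, ← Real.exp_nat_mul]
      congr 2
      ring
    have h2 := h1 (n + 1)
    rw [Real.rpow_one, Real.rpow_add hnp, show (2 : ℝ) = ((2 : ℕ) : ℝ) by norm_num, Real.rpow_natCast] at h2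
    have h3 : ((n + 1 : ℕ) : ℝ) ^ C * Real.exp (-(d * ((n + 1 : ℕ) : ℝ))) ≤ K * (((n + 1 : ℕ) : ℝ) ^ 2)⁻¹ := by
      rw [← div_eq_mul_inv, le_div_iff₀ (by positivity)]
      calc _ = ((n + 1 : ℕ) : ℝ) ^ C * ((n + 1 : ℕ) : ℝ) ^ 2 * Real.exp (-(d * ((n + 1 : ℕ) : ℝ))) := by ring
        _ ≤ K := h2
    rw [hpow]
    calc ((WS hexL (n + 1)).card : ℝ) * (xc ^ (n + 1) * Real.exp (-(d * ((n + 1 : ℕ) : ℝ))))
        = (((WS hexL (n + 1)).card : ℝ) * xc ^ (n + 1)) * Real.exp (-(d * ((n + 1 : ℕ) : ℝ))) := by ring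
      _ ≤ (C * ((n + 1 : ℕ) : ℝ) ^ C) * Real.exp (-(d * ((n + 1 : ℕ) : ℝ))) :=
          mul_le_mul_of_nonneg_right (hP _ (by omega)) (Real.exp_pos _).le
      _ = C * (((n + 1 : ℕ) : ℝ) ^ C * Real.exp (-(d * ((n + 1 : ℕ) : ℝ)))) := by ring
      _ ≤ C * (K * (((n + 1 : ℕ) : ℝ) ^ 2)⁻¹) := mul_le_mul_of_nonneg_left h3 (by linarith)
      _ = _ := by ring
  have hsum : Summable (fun n : ℕ => tm (xc * Real.exp (-d)) R n) := by
    rw [← summable_nat_add_iff 1]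
    exact Summable.of_nonneg_of_le (fun n => tm_nonneg hz0 _) hb (((summable_nat_add_iff 1).2 hS).mul_left _)
  rw [M_tm hz0, ← ENNReal.ofReal_tsum_of_nonneg (fun n => tm_nonneg hz0 n) hsum]
  exact ENNReal.ofReal_ne_top

/-- **exponential decay** -/
theorem decay {p θ : ℝ} (hp : 0 < p) (hθ : p / 2 < θ) (hT : TailUp p) :
    ∃ T0 : ℝ, 1 ≤ T0 ∧ ∀ T : ℝ, T0 ≤ T → ∀ d : ℝ, 0 < d → T ^ (-1 / θ) ≤ d →
      ∃ C : ℝ, 0 ≤ C ∧ ∀ R : ℝ, 0 ≤ R →
        M (ENNReal.ofReal (xc * Real.exp (-d))) false R ≤ ENNReal.ofReal (C * Real.exp (-(R / (T + 1)))) := by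
  obtain ⟨T0, hT0, h⟩ := M_small hp hθ hT
  refine ⟨T0, hT0, fun T hTT d hd hdT => ?_⟩
  set z : ℝ≥0∞ := ENNReal.ofReal (xc * Real.exp (-d)) with hz
  have hT1 : 0 < T + 1 := by linarith
  refine ⟨Real.exp 1 * (M z false 0).toReal, by positivity, fun R hR => ?_⟩
  set k : ℕ := ⌊R / (T + 1)⌋₊ with hk
  have h0 : 0 ≤ R / (T + 1) := by positivity
  have h1 : (k : ℝ) ≤ R / (T + 1) := Nat.floor_le h0
  have h2 : R / (T + 1) < k + 1 := Nat.lt_floor_add_one _
  have h3 : (k : ℝ) * (T + 1) ≤ R := by rwa [le_div_iff₀ hT1] at h1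
  have h4 : M z false T ^ k ≤ ENNReal.ofReal (Real.exp (-(k : ℝ))) := by
    calc M z false T ^ k ≤ (ENNReal.ofReal (Real.exp (-1))) ^ k := pow_le_pow_left' (h T hTT d hdT) k
      _ = ENNReal.ofReal (Real.exp (-1) ^ k) := (ENNReal.ofReal_pow (Real.exp_pos _).le k).symm
      _ = _ := by rw [← Real.exp_nat_mul]; congr 2; ring
  have h5 : M z false 0 = ENNReal.ofReal (M z false 0).toReal := (ENNReal.ofReal_toReal (M_fin hd 0)).symm
  calc M z false R ≤ M z false (k * (T + 1)) := M_anti z false h3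
    _ ≤ M z false T ^ k * M z false 0 := M_pow z (by linarith) k
    _ ≤ ENNReal.ofReal (Real.exp (-(k : ℝ))) * ENNReal.ofReal (M z false 0).toReal := by
        rw [← h5]
        exact mul_le_mul_left h4 _
    _ = ENNReal.ofReal (Real.exp (-(k : ℝ)) * (M z false 0).toReal) :=
        (ENNReal.ofReal_mul (Real.exp_pos _).le).symm
    _ ≤ _ := by
        apply ENNReal.ofReal_le_ofReal
        have h6 : Real.exp (-(k : ℝ)) ≤ Real.exp 1 * Real.exp (-(R / (T + 1))) := by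
          rw [← Real.exp_add]
          exact Real.exp_le_exp.2 (by linarith)
        calc Real.exp (-(k : ℝ)) * (M z false 0).toReal
            ≤ Real.exp 1 * Real.exp (-(R / (T + 1))) * (M z false 0).toReal :=
              mul_le_mul_of_nonneg_right h6 ENNReal.toReal_nonneg
          _ = _ := by ring

end XI72
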