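import Pool.Agent.XI72.Lim
import Pool.Agent.TH.Main
import Pool.Agent.T2.MainUp
import Pool.Agent.T2.LongP

/-!
XI72: the input of the present bounds.
-/

set_option autoImplicit false

open Filter Topology

namespace XI72

open SawNu HexObs

/-- the mean length of the bridges, present exponent -/
theorem meanLen_now : ∀ a : ℝ, 5 / 4 + 5 * Real.sqrt 3 / 36 < a → ∃ C : ℝ, 0 < C ∧ HexObs.T2.MeanLen a C := by
  intro a ha
  obtain ⟨C, hC, h⟩ := HexObs.TH.meanLen_main ha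
  refine ⟨C + 1, by linarith, fun T hT => (h T hT).trans ?_⟩
  refine mul_le_mul' (ENNReal.ofReal_le_ofReal ?_) le_rfl
  exact mul_le_mul_of_nonneg_right (by linarith) (by positivity)

/-- the upper tail, present exponent -/
theorem tailUp_now : ∃ p0 : ℝ, 0 < p0 ∧ p0 < 8 / 5 ∧ ∀ p : ℝ, p0 < p → TailUp p := by
  obtain ⟨b, hb, hL⟩ := HexObs.T2.longWalks_pos
  have hd : (0 : ℝ) < 5 / 4 + b := by linarith
  refine ⟨2 / (5 / 4 + b), by positivity, ?_, fun p hp => ?_⟩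
  · rw [div_lt_iff₀ hd]
    linarith
  · have hq : 2 < p * (1 + (1 / 4 + b)) := by
      rw [div_lt_iff₀ hd] at hp
      linarith
    exact (HexObs.T2.all_n_up (by linarith) hL hq).1

open Classical in
/-- **The present bounds for the correlation length.** -/
theorem now {f : ℕ → Fin 3 → ℂ}
    (hf : ∀ i a, f i a = (-1 : ℂ) ^ i * Complex.exp (2 * (Real.pi : ℂ) * Complex.I * ((a : ℕ) : ℂ) / 3))
    {μ : ℝ} (hμ : μ = ⨅ n : {n : ℕ // 1 ≤ n}, (((saw f n.1).card : ℝ) ^ ((1 : ℝ) / (n.1 : ℝ))))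
    {G : ℝ → ℂ → ℝ}
    (hG : ∀ z x, G z x = ∑' n : ℕ, (((saw f n).filter (fun s => SawNu.pos f s n = x)).card : ℝ) * z ^ n)
    {ξ : ℝ → ℝ} (hξ : ∀ z, ξ z = sInf (Adm (G z))) :
    ∃ ν2 : ℝ, ν2 < 4 / 5 ∧ ∀ ν1 : ℝ, ν1 < 36 / (45 + 5 * Real.sqrt 3) →
      ∀ᶠ z in 𝓝[<] (1 / μ), (1 / μ - z) ^ (-ν1) ≤ ξ z ∧ ξ z ≤ (1 / μ - z) ^ (-ν2) := by
  obtain ⟨p0, h0, h1, hU⟩ := tailUp_now
  obtain ⟨ν2, h2, h3⟩ := exists_between (show p0 / 2 < 4 / 5 by linarith)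
  have hs := Real.sqrt_nonneg 3
  refine ⟨ν2, h3, fun ν1 h4 => main (a0 := 5 / 4 + 5 * Real.sqrt 3 / 36) (p0 := p0) (by positivity) h0
    meanLen_now hU hf hμ hG hξ ?_ h2⟩
  refine h4.trans_eq ?_
  field_simp
  ring

end XI72
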