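import Pool.Agent.XI72.E

/-!
XI72: the correlation length exponent as a limit, from matching bounds.
-/

set_option autoImplicit false

open scoped ENNReal
open Filter Topology

namespace XI72

open SawNu HexObs

open Classical in
/-- **The correlation length exponent.** -/
theorem limit {ν : ℝ} (hν : 0 < ν)
    (hL : ∀ a : ℝ, 1 / ν < a → ∃ C : ℝ, 0 < C ∧ HexObs.T2.MeanLen a C) (hU : ∀ p : ℝ, 2 * ν < p → TailUp p)
    {f : ℕ → Fin 3 → ℂ}
    (hf : ∀ i a, f i a = (-1 : ℂ) ^ i * Complex.exp (2 * (Real.pi : ℂ) * Complex.I * ((a : ℕ) : ℂ) / 3))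
    {μ : ℝ} (hμ : μ = ⨅ n : {n : ℕ // 1 ≤ n}, (((saw f n.1).card : ℝ) ^ ((1 : ℝ) / (n.1 : ℝ))))
    {G : ℝ → ℂ → ℝ}
    (hG : ∀ z x, G z x = ∑' n : ℕ, (((saw f n).filter (fun s => SawNu.pos f s n = x)).card : ℝ) * z ^ n)
    {ξ : ℝ → ℝ} (hξ : ∀ z, ξ z = sInf (Adm (G z))) :
    Tendsto (fun z => Real.log (ξ z) / Real.log (1 / (1 / μ - z))) (𝓝[<] (1 / μ)) (𝓝 ν) := by
  have key : ∀ ν1 ν2 : ℝ, ν1 < ν → ν < ν2 → ∀ᶠ z in 𝓝[<] (1 / μ),
      ν1 ≤ Real.log (ξ z) / Real.log (1 / (1 / μ - z)) ∧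
        Real.log (ξ z) / Real.log (1 / (1 / μ - z)) ≤ ν2 := by
    intro ν1 ν2 h1 h2
    have h := main (a0 := 1 / ν) (p0 := 2 * ν) (by positivity) (by positivity) hL hU hf hμ hG hξ
      (ν1 := ν1) (ν2 := ν2) (by rwa [one_div_one_div]) (by linarith)
    have h3 : ∀ᶠ z in 𝓝[<] (1 / μ), 1 / μ - z < 1 := by
      refine Eventually.filter_mono nhdsWithin_le_nhds ?_
      have : ∀ᶠ z in 𝓝 (1 / μ), 1 / μ - 1 < z := eventually_gt_nhds (by linarith)
      filter_upwards [this] with z hz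
      linarith
    filter_upwards [h, h3, self_mem_nhdsWithin] with z hz1 hz2 hz3
    have hu : 0 < 1 / μ - z := sub_pos.2 (show z < 1 / μ from hz3)
    generalize 1 / μ - z = u at *
    have hlog : 0 < Real.log (1 / u) := Real.log_pos ((one_lt_div hu).2 hz2)
    have e : Real.log (1 / u) = -Real.log u := by rw [one_div, Real.log_inv]
    have hlow : 0 < u ^ (-ν1) := Real.rpow_pos_of_pos hu _
    have l1 := Real.log_le_log hlow hz1.1
    have l2 := Real.log_le_log (hlow.trans_le hz1.1) hz1.2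
    rw [Real.log_rpow hu] at l1 l2
    rw [le_div_iff₀ hlog, div_le_iff₀ hlog, e]
    constructor <;> linarith
  rw [tendsto_order]
  constructor
  · intro a ha
    obtain ⟨b, h1, h2⟩ := exists_between ha
    filter_upwards [key b (ν + 1) h2 (by linarith)] with z hz
    linarith [hz.1]
  · intro a ha
    obtain ⟨b, h1, h2⟩ := exists_between ha
    filter_upwards [key (ν - 1) b (by linarith) h1] with z hz
    linarith [hz.2]

end XI72
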